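import Pool.Agent.LIN.S.S0

/-!
# [LIN-SA1] bounds for the pairing function, list codes
-/

namespace Pool.Agent.LIN.S

open FirstOrder

variable {L : FirstOrder.Language.{0, 0}}

/-- Monotonicity (`Nat.pair_lt_pair_left`, `Nat.pair_lt_pair_right`). -/
theorem pair_mono {a b c d : ℕ} (h : a ≤ c) (h' : b ≤ d) : Nat.pair a b ≤ Nat.pair c d := by
  have h1 : Nat.pair a b ≤ Nat.pair c b := by
    rcases h.eq_or_lt with h | h
    · rw [h]
    · exact (Nat.pair_lt_pair_left b h).le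
  have h2 : Nat.pair c b ≤ Nat.pair c d := by
    rcases h'.eq_or_lt with h | h
    · rw [h]
    · exact (Nat.pair_lt_pair_right c h).le
  exact h1.trans h2

theorem argc_pair_zero (a e : ℕ) : argc (Nat.pair a e) 0 = a := by
  show (Nat.unpair (Nat.pair a e)).1 = a
  rw [Nat.unpair_pair]

theorem argc_pair_succ (a e j : ℕ) : argc (Nat.pair a e) (j + 1) = argc e j := by
  show argc (Nat.unpair (Nat.pair a e)).2 j = argc e j
  rw [Nat.unpair_pair]

/-- Induction on `l` generalizing `j`; `argc (Nat.pair a e) (j+1) = argc e j`. -/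
theorem argc_lcode (l : List ℕ) (j : ℕ) (hj : j < l.length) : argc (lcode l) j = l[j] := by
  induction l generalizing j with
  | nil => exact absurd hj (Nat.not_lt_zero j)
  | cons a l ih =>
    cases j with
    | zero => exact argc_pair_zero a (lcode l)
    | succ j =>
      rw [lcode, argc_pair_succ]
      exact ih j (Nat.lt_of_succ_lt_succ hj)

/-- Every 7 numbers are the parameters of some `p`. -/
theorem exists_param (x0 x1 x2 x3 x4 x5 x6 : ℕ) : ∃ p, argc p 0 = x0 ∧ argc p 1 = x1 ∧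
    argc p 2 = x2 ∧ argc p 3 = x3 ∧ argc p 4 = x4 ∧ argc p 5 = x5 ∧ argc p 6 = x6 := by
  have h : ∀ j (hj : j < [x0, x1, x2, x3, x4, x5, x6].length),
      argc (lcode [x0, x1, x2, x3, x4, x5, x6]) j = [x0, x1, x2, x3, x4, x5, x6][j] :=
    argc_lcode _
  exact ⟨lcode [x0, x1, x2, x3, x4, x5, x6], h 0 (by simp), h 1 (by simp), h 2 (by simp),
    h 3 (by simp), h 4 (by simp), h 5 (by simp), h 6 (by simp)⟩

/-- `Good` is the conjunction of the `chk E p`: for `→` use the fields, for `←` use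
`exists_param`. -/
theorem good_iff (E : Enum L) (t : ℕ → Bool) : Good E t ↔ ∀ p, chk E p t := by
  constructor
  · intro h p
    exact ⟨h.k1 _ _, h.k2 _ _, h.k3 _ _, h.k4 _ _ _, h.k5 _ _ _, h.k5' _ _ _ _ _ _, h.k6 _ _ _,
      h.k7 _ _ _ _, h.k8 _ _ _, h.k9 _, h.k10 _ _ _, h.k11 _ _ _, h.k12 _ _ _ _ _ _⟩
  · intro h
    have key : ∀ x0 x1 x2 x3 x4 x5 x6, K1 t x0 x1 ∧ K2 E t x0 x1 ∧ K3 t x0 x2 ∧
        K4 t x0 x1 x2 ∧ K5 E t x0 x1 x2 ∧ K5' E t x0 x1 x2 x3 x4 x5 ∧
        K6 t x0 x1 x2 ∧ K7 t x0 x1 x2 x6 ∧ K8 t x0 x1 x2 ∧ K9 t x0 ∧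
        K10 t x0 x1 x2 ∧ K11 t x0 x1 x2 ∧ K12 E t x0 x1 x2 x3 x4 x5 := by
      intro x0 x1 x2 x3 x4 x5 x6
      obtain ⟨p, h0, h1, h2, h3, h4, h5, h6⟩ := exists_param x0 x1 x2 x3 x4 x5 x6
      have hp := h p
      unfold chk at hp
      rw [h0, h1, h2, h3, h4, h5, h6] at hp
      exact hp
    exact {
      k1 := fun n c => (key n c 0 0 0 0 0).1
      k2 := fun n c => (key n c 0 0 0 0 0).2.1
      k3 := fun n e => (key n 0 e 0 0 0 0).2.2.1
      k4 := fun n c e => (key n c e 0 0 0 0).2.2.2.1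
      k5 := fun n c e => (key n c e 0 0 0 0).2.2.2.2.1
      k5' := fun n c e n' c' e' => (key n c e n' c' e' 0).2.2.2.2.2.1
      k6 := fun n c e => (key n c e 0 0 0 0).2.2.2.2.2.2.1
      k7 := fun n c e a => (key n c e 0 0 0 a).2.2.2.2.2.2.2.1
      k8 := fun n c e => (key n c e 0 0 0 0).2.2.2.2.2.2.2.2.1
      k9 := fun n => (key n 0 0 0 0 0 0).2.2.2.2.2.2.2.2.2.1
      k10 := fun n c e => (key n c e 0 0 0 0).2.2.2.2.2.2.2.2.2.2.1
      k11 := fun n c e => (key n c e 0 0 0 0).2.2.2.2.2.2.2.2.2.2.2.1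
      k12 := fun n c e n' c' e' => (key n c e n' c' e' 0).2.2.2.2.2.2.2.2.2.2.2.2 }

/-- The environment of a name is smaller than the name (needed when `1 ≤ n`):
`Nat.pair n e > e` for `n ≥ 1`. -/
theorem lt_cl {n c e j : ℕ} (hn : 1 ≤ n) : argc e j < cl n c e := by
  have h1 := argc_le e j
  have h2 := Nat.right_le_pair n e
  have h3 := Nat.left_le_pair n e
  have h4 := Nat.right_le_pair c (Nat.pair n e)
  unfold cl
  omega

theorem lt_wit {n x e j : ℕ} : argc e j < wit n x e := by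
  have h1 := argc_le e j
  have h2 := Nat.right_le_pair n e
  have h4 := Nat.right_le_pair x (Nat.pair n e)
  unfold wit
  omega

end Pool.Agent.LIN.S
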