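import Pool.Agent.LIN.S.S0

/-!
# [LIN-SA2] `chk E p t` depends only on the values of `t` below `beta p`
-/

namespace Pool.Agent.LIN.S

open FirstOrder

variable {L : FirstOrder.Language.{0, 0}}

theorem A2_pair_mono {a b c d : ℕ} (h : a ≤ c) (h' : b ≤ d) : Nat.pair a b ≤ Nat.pair c d := by
  have h1 : Nat.pair a b ≤ Nat.pair c b := by
    rcases h.eq_or_lt with h | h
    · rw [h]
    · exact (Nat.pair_lt_pair_left b h).le
  have h2 : Nat.pair c b ≤ Nat.pair c d := by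
    rcases h'.eq_or_lt with h | h
    · rw [h]
    · exact (Nat.pair_lt_pair_right c h).le
  exact h1.trans h2

/-- bound for the names -/
def A2_X (p : ℕ) : ℕ := 2 * Nat.pair (2 * p + 2) (Nat.pair (2 * p + 2) (2 * p + 2)) + 1

theorem A2_beta (p : ℕ) : beta p = 3 * Nat.pair (Nat.pair (A2_X p) (A2_X p))
    (Nat.pair (A2_X p) (Nat.pair (A2_X p) (A2_X p))) + 3 := rfl

theorem A2_X_mono {p q : ℕ} (h : p ≤ q) : A2_X p ≤ A2_X q := by
  unfold A2_X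
  have h0 : 2 * p + 2 ≤ 2 * q + 2 := by omega
  have h1 := A2_pair_mono h0 (A2_pair_mono h0 h0)
  omega

/-- Monotone bound. -/
theorem beta_mono {p q : ℕ} (h : p ≤ q) : beta p ≤ beta q := by
  rw [A2_beta, A2_beta]
  have h0 := A2_X_mono h
  have h1 := A2_pair_mono (A2_pair_mono h0 h0) (A2_pair_mono h0 (A2_pair_mono h0 h0))
  omega

theorem A2_le_X {p x : ℕ} (h : x ≤ 4 * p + 4) : x ≤ A2_X p := by
  unfold A2_X
  have h1 := Nat.left_le_pair (2 * p + 2) (Nat.pair (2 * p + 2) (2 * p + 2))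
  omega

theorem A2_cl {p n c e : ℕ} (hn : n ≤ 2 * p + 2) (hc : c ≤ 2 * p + 2) (he : e ≤ 2 * p + 2) :
    cl n c e ≤ A2_X p := by
  unfold cl A2_X
  have h1 := A2_pair_mono hc (A2_pair_mono hn he)
  omega

theorem A2_wit {p n c e : ℕ} (hn : n ≤ 2 * p + 2) (hc : c ≤ 2 * p + 2) (he : e ≤ 2 * p + 2) :
    wit n c e ≤ A2_X p := by
  unfold wit A2_X
  have h1 := A2_pair_mono hc (A2_pair_mono hn he)
  omega

theorem A2_jT {p n c e : ℕ} (hn : n ≤ A2_X p) (hc : c ≤ A2_X p)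
    (he : e ≤ Nat.pair (A2_X p) (A2_X p)) : jT n c e < beta p := by
  rw [A2_beta]
  unfold jT
  have h0 := Nat.left_le_pair (A2_X p) (A2_X p)
  have h1 := A2_pair_mono (hc.trans h0) (A2_pair_mono hn he)
  omega

theorem A2_pp (p : ℕ) : Nat.pair (A2_X p) (A2_X p) ≤ Nat.pair (Nat.pair (A2_X p) (A2_X p))
    (Nat.pair (A2_X p) (Nat.pair (A2_X p) (A2_X p))) :=
  A2_pair_mono (Nat.left_le_pair _ _) (Nat.left_le_pair _ _)

theorem A2_jD {p n c : ℕ} (hn : n ≤ A2_X p) (hc : c ≤ A2_X p) : jD n c < beta p := by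
  rw [A2_beta]
  unfold jD
  have h1 := A2_pair_mono hn hc
  have h2 := A2_pp p
  omega

theorem A2_jE {p a b : ℕ} (ha : a ≤ A2_X p) (hb : b ≤ A2_X p) : jE a b < beta p := by
  rw [A2_beta]
  unfold jE
  have h1 := A2_pair_mono ha hb
  have h2 := A2_pp p
  omega

theorem A2_argc {p c j : ℕ} (hc : c ≤ p) : argc (Nat.unpair c).2 j ≤ p :=
  (argc_le _ j).trans ((Nat.unpair_right_le c).trans hc)

section
variable {E : Enum L} {p : ℕ} {t t' : ℕ → Bool} (h : ∀ i < beta p, t i = t' i)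
include h

theorem A2_tT {n c e : ℕ} (hn : n ≤ p + 1) (hc : c ≤ 4 * p + 4) (he : e ≤ Nat.pair (A2_X p) (A2_X p)) :
    t (jT n c e) = t' (jT n c e) :=
  h _ (A2_jT (A2_le_X (by omega)) (A2_le_X hc) he)

theorem A2_tD {n c : ℕ} (hn : n ≤ p) (hc : c ≤ 2 * p + 1) : t (jD n c) = t' (jD n c) :=
  h _ (A2_jD (A2_le_X (by omega)) (A2_le_X (by omega)))

theorem A2_tE {a b : ℕ} (ha : a ≤ A2_X p) (hb : b ≤ A2_X p) : t (jE a b) = t' (jE a b) :=
  h _ (A2_jE ha hb)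

theorem A2_tDa {n c : ℕ} (hn : n ≤ p) (hc : c ≤ p) (j : ℕ) :
    t (jD n (argc (Nat.unpair c).2 j)) = t' (jD n (argc (Nat.unpair c).2 j)) :=
  A2_tD h hn (by have := A2_argc (j := j) hc; omega)

theorem A2_tEa {n c e n' c' e' : ℕ} (hn : n ≤ p) (hc : c ≤ p) (he : e ≤ p) (hn' : n' ≤ p)
    (hc' : c' ≤ p) (he' : e' ≤ p) (j : ℕ) :
    t (jE (cl n (argc (Nat.unpair c).2 j) e) (cl n' (argc (Nat.unpair c').2 j) e')) =
      t' (jE (cl n (argc (Nat.unpair c).2 j) e) (cl n' (argc (Nat.unpair c').2 j) e')) := by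
  have h1 := A2_argc (j := j) hc
  have h2 := A2_argc (j := j) hc'
  exact A2_tE h (A2_cl (by omega) (by omega) (by omega)) (A2_cl (by omega) (by omega) (by omega))

theorem A2_tT' {n c e : ℕ} (hn : n ≤ p + 1) (hc : c ≤ 4 * p + 4) (he : e ≤ p) :
    t (jT n c e) = t' (jT n c e) :=
  A2_tT h hn hc ((A2_le_X (by omega)).trans (Nat.left_le_pair _ _))

theorem A2_K1 {n c : ℕ} (hn : n ≤ p) (hc : c ≤ p) : K1 t n c ↔ K1 t' n c := by
  unfold K1
  rw [A2_tD h hn (by omega : 2 * c ≤ 2 * p + 1)]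

theorem A2_K2 {n c : ℕ} (hn : n ≤ p) (hc : c ≤ p) : K2 E t n c ↔ K2 E t' n c := by
  unfold K2
  rw [A2_tD h hn (by omega : 2 * c + 1 ≤ 2 * p + 1)]
  simp only [A2_tDa h hn hc]

theorem A2_K3 {n e : ℕ} (hn : n ≤ p) (he : e ≤ p) : K3 t n e ↔ K3 t' n e := by
  unfold K3
  rw [A2_tT' h (by omega) (by omega) he]

theorem A2_K4 {n c e : ℕ} (hn : n ≤ p) (hc : c ≤ p) (he : e ≤ p) : K4 t n c e ↔ K4 t' n c e := by
  unfold K4
  have h1 := (Nat.unpair_left_le c).trans hc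
  have h2 := (Nat.unpair_right_le c).trans hc
  rw [A2_tT' h (by omega) (by omega : 4 * c + 1 ≤ 4 * p + 4) he,
    A2_tD h hn (by omega : (Nat.unpair c).1 ≤ 2 * p + 1),
    A2_tD h hn (by omega : (Nat.unpair c).2 ≤ 2 * p + 1),
    A2_tE h (A2_cl (by omega) (by omega) (by omega)) (A2_cl (by omega) (by omega) (by omega))]

theorem A2_K5 {n c e : ℕ} (hn : n ≤ p) (hc : c ≤ p) (he : e ≤ p) :
    K5 E t n c e ↔ K5 E t' n c e := by
  unfold K5
  rw [A2_tT' h (by omega) (by omega : 4 * c + 2 ≤ 4 * p + 4) he]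
  simp only [A2_tDa h hn hc]

theorem A2_K5' {n c e n' c' e' : ℕ} (hn : n ≤ p) (hc : c ≤ p) (he : e ≤ p) (hn' : n' ≤ p)
    (hc' : c' ≤ p) (he' : e' ≤ p) : K5' E t n c e n' c' e' ↔ K5' E t' n c e n' c' e' := by
  unfold K5'
  rw [A2_tT' h (by omega) (by omega : 4 * c + 2 ≤ 4 * p + 4) he,
    A2_tT' h (by omega) (by omega : 4 * c' + 2 ≤ 4 * p + 4) he']
  simp only [A2_tDa h hn' hc', A2_tEa h hn hc he hn' hc' he']

theorem A2_K6 {n c e : ℕ} (hn : n ≤ p) (hc : c ≤ p) (he : e ≤ p) : K6 t n c e ↔ K6 t' n c e := by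
  unfold K6
  have h1 := (Nat.unpair_left_le c).trans hc
  have h2 := (Nat.unpair_right_le c).trans hc
  rw [A2_tT' h (by omega) (by omega : 4 * c + 3 ≤ 4 * p + 4) he,
    A2_tT' h (by omega) (by omega : (Nat.unpair c).1 ≤ 4 * p + 4) he,
    A2_tT' h (by omega) (by omega : (Nat.unpair c).2 ≤ 4 * p + 4) he]

theorem A2_K7 {n c e a : ℕ} (hn : n ≤ p) (hc : c ≤ p) (he : e ≤ p) (ha : a ≤ p) :
    K7 t n c e a ↔ K7 t' n c e a := by
  unfold K7
  rw [A2_tT' h (by omega) (by omega : 4 * c + 4 ≤ 4 * p + 4) he,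
    A2_tT h (by omega : n + 1 ≤ p + 1) (by omega : c ≤ 4 * p + 4)
      (A2_pair_mono (A2_le_X (by omega)) (A2_le_X (by omega)))]

theorem A2_K8 {n c e : ℕ} (hn : n ≤ p) (hc : c ≤ p) (he : e ≤ p) : K8 t n c e ↔ K8 t' n c e := by
  unfold K8
  rw [A2_tT' h (by omega) (by omega : 4 * c + 4 ≤ 4 * p + 4) he,
    A2_tT h (by omega : n + 1 ≤ p + 1) (by omega : c ≤ 4 * p + 4)
      (A2_pair_mono (A2_wit (by omega) (by omega) (by omega)) (A2_le_X (by omega)))]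

theorem A2_K9 {n : ℕ} (hn : n ≤ p) : K9 t n ↔ K9 t' n := by
  unfold K9
  rw [A2_tE h (A2_le_X (by omega)) (A2_le_X (by omega))]

theorem A2_K10 {n c e : ℕ} (hn : n ≤ p) (hc : c ≤ p) (he : e ≤ p) :
    K10 t n c e ↔ K10 t' n c e := by
  unfold K10
  rw [A2_tE h (A2_le_X (by omega) : n ≤ A2_X p) (A2_le_X (by omega) : c ≤ A2_X p),
    A2_tE h (A2_le_X (by omega) : n ≤ A2_X p) (A2_le_X (by omega) : e ≤ A2_X p),
    A2_tE h (A2_le_X (by omega) : c ≤ A2_X p) (A2_le_X (by omega) : e ≤ A2_X p)]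

theorem A2_K11 {n c e : ℕ} (hn : n ≤ p) (hc : c ≤ p) (he : e ≤ p) :
    K11 t n c e ↔ K11 t' n c e := by
  unfold K11
  have h1 := argc_le e c
  rw [A2_tE h (A2_cl (by omega) (by omega) (by omega)) (A2_le_X (by omega))]

theorem A2_K12 {n c e n' c' e' : ℕ} (hn : n ≤ p) (hc : c ≤ p) (he : e ≤ p) (hn' : n' ≤ p)
    (hc' : c' ≤ p) (he' : e' ≤ p) : K12 E t n c e n' c' e' ↔ K12 E t' n c e n' c' e' := by
  unfold K12
  rw [A2_tE h (A2_cl (by omega) (by omega) (by omega) : cl n (2 * c + 1) e ≤ A2_X p)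
    (A2_cl (by omega) (by omega) (by omega) : cl n' (2 * c' + 1) e' ≤ A2_X p)]
  simp only [A2_tDa h hn hc, A2_tDa h hn' hc', A2_tEa h hn hc he hn' hc' he']

end

/-- All judgement codes that occur in `chk E p` are `< beta p`: all parameters `argc p j` are
`≤ p` (`argc_le`), `(Nat.unpair c).1, (Nat.unpair c).2 ≤ c` (`Nat.unpair_left_le`,
`Nat.unpair_right_le`), `argc l j ≤ l`. Put `X = 2 * pair (2p+2) (pair (2p+2) (2p+2)) + 1`: all
names that occur (`cl n c e` with `n ≤ p`, `c ≤ 2p+1`, `e ≤ p`, `wit n c e`, `argc e c`) are `≤ X`,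
so `jE a b ≤ 3 * pair X X + 2`, `jD n c ≤ 3 * pair X X + 1` and `jT n c e ≤ 3 * pair X (pair X
(pair X X))` (here `c ≤ 4p+4 ≤ X`, `n ≤ p + 1 ≤ X`, `e ≤ pair X X`), and all this is `< beta p =
3 * pair (pair X X) (pair X (pair X X)) + 3`. (`Nat.left_le_pair`, `Nat.right_le_pair`.)
Then unfold `chk` and rewrite the values of `t` one by one. -/
theorem chk_local (E : Enum L) (p : ℕ) (t t' : ℕ → Bool) (h : ∀ i < beta p, t i = t' i) :
    chk E p t ↔ chk E p t' := by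
  have b : ∀ j, argc p j ≤ p := argc_le p
  unfold chk
  rw [A2_K1 h (b 0) (b 1), A2_K2 h (b 0) (b 1), A2_K3 h (b 0) (b 2), A2_K4 h (b 0) (b 1) (b 2),
    A2_K5 h (b 0) (b 1) (b 2), A2_K5' h (b 0) (b 1) (b 2) (b 3) (b 4) (b 5),
    A2_K6 h (b 0) (b 1) (b 2), A2_K7 h (b 0) (b 1) (b 2) (b 6), A2_K8 h (b 0) (b 1) (b 2),
    A2_K9 h (b 0), A2_K10 h (b 0) (b 1) (b 2), A2_K11 h (b 0) (b 1) (b 2),
    A2_K12 h (b 0) (b 1) (b 2) (b 3) (b 4) (b 5)]

end Pool.Agent.LIN.S
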