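import Pool.Agent.LIN.S.S0

/-!
# [LIN-SA3] primitive recursive building blocks
-/

namespace Pool.Agent.LIN.S

open FirstOrder

variable {L : FirstOrder.Language.{0, 0}}

/-- `argc` is primitive recursive: `argc c j = (Nat.unpair (f^[j] c)).1`, `f c = (Nat.unpair c).2`
(`Primrec.nat_iterate` or `Primrec.nat_rec`; first prove the identity by induction). -/
theorem primrec_argc : Primrec₂ argc := by
  have h : ∀ c j, argc c j = (Nat.unpair ((fun x => (Nat.unpair x).2)^[j] c)).1 := by
    intro c j
    induction j generalizing c with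
    | zero => rfl
    | succ j ih =>
      rw [Function.iterate_succ_apply]
      exact ih _
  have h1 : Primrec (fun x : ℕ × ℕ => (Nat.unpair ((fun x => (Nat.unpair x).2)^[x.2] x.1)).1) :=
    Primrec.fst.comp (Primrec.unpair.comp (Primrec.nat_iterate Primrec.snd Primrec.fst
      ((Primrec.snd.comp (Primrec.unpair.comp Primrec.snd)).to₂)))
  exact (h1.of_eq fun x => (h x.1 x.2).symm)

/-- `aF E` is a function with finite support: `aF E i = ((List.ofFn fun i => (E.F i).1)[i]?).getD 0`
(`Primrec.list_getElem?` with the constant list, `Primrec.option_getD`). -/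
theorem primrec_aF (E : Enum L) : Primrec (aF E) := by
  have h1 : Primrec (fun i : ℕ => ((List.ofFn fun i => (E.F i).1)[i]?).getD 0) :=
    Primrec.option_getD.comp (Primrec.list_getElem?.comp
      (Primrec.const (List.ofFn fun i => (E.F i).1)) Primrec.id) (Primrec.const 0)
  refine h1.of_eq fun i => ?_
  unfold aF
  rw [List.getElem?_ofFn]
  by_cases h : i < E.nF
  · rw [dif_pos h, dif_pos h]
    rfl
  · rw [dif_neg h, dif_neg h]
    rfl

theorem primrec_aR (E : Enum L) : Primrec (aR E) := by
  have h1 : Primrec (fun i : ℕ => ((List.ofFn fun i => (E.R i).1)[i]?).getD 0) :=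
    Primrec.option_getD.comp (Primrec.list_getElem?.comp
      (Primrec.const (List.ofFn fun i => (E.R i).1)) Primrec.id) (Primrec.const 0)
  refine h1.of_eq fun i => ?_
  unfold aR
  rw [List.getElem?_ofFn]
  by_cases h : i < E.nR
  · rw [dif_pos h, dif_pos h]
    rfl
  · rw [dif_neg h, dif_neg h]
    rfl

/-- Powers of two (`Primrec.nat_rec`). -/
theorem primrec_pow : Primrec (fun i : ℕ => 2 ^ i) := by
  have h1 : Primrec (fun i : ℕ => (fun x => 2 * x)^[i] 1) :=
    Primrec.nat_iterate Primrec.id (Primrec.const 1) ((Primrec.nat_double.comp Primrec.snd).to₂)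
  refine h1.of_eq fun i => ?_
  induction i with
  | zero => rfl
  | succ i ih => rw [Function.iterate_succ_apply', ih, pow_succ, mul_comm]

/-- Bits: `m.testBit i = decide (m / 2 ^ i % 2 = 1)` (`Nat.testBit_eq_decide_div_mod_eq`). -/
theorem primrec_testBit : Primrec₂ (fun m i : ℕ => m.testBit i) := by
  have h1 : PrimrecPred (fun x : ℕ × ℕ => x.1 / 2 ^ x.2 % 2 = 1) :=
    Primrec.eq.comp (Primrec.nat_mod.comp (Primrec.nat_div.comp Primrec.fst
      (primrec_pow.comp Primrec.snd)) (Primrec.const 2)) (Primrec.const 1)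
  have h2 : Primrec (fun x : ℕ × ℕ => decide (x.1 / 2 ^ x.2 % 2 = 1)) := h1.decide
  exact h2.of_eq fun x => (Nat.testBit_eq_decide_div_mod_eq).symm

theorem primrec_cl {α : Type} [Primcodable α] {f g h : α → ℕ} (hf : Primrec f) (hg : Primrec g)
    (hh : Primrec h) : Primrec (fun x => cl (f x) (g x) (h x)) :=
  Primrec.nat_double.comp (Primrec₂.natPair.comp hg (Primrec₂.natPair.comp hf hh))

theorem primrec_wit {α : Type} [Primcodable α] {f g h : α → ℕ} (hf : Primrec f) (hg : Primrec g)
    (hh : Primrec h) : Primrec (fun x => wit (f x) (g x) (h x)) :=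
  Primrec.nat_double_succ.comp (Primrec₂.natPair.comp hg (Primrec₂.natPair.comp hf hh))

theorem primrec_jT {α : Type} [Primcodable α] {f g h : α → ℕ} (hf : Primrec f) (hg : Primrec g)
    (hh : Primrec h) : Primrec (fun x => jT (f x) (g x) (h x)) :=
  Primrec.nat_mul.comp (Primrec.const 3)
    (Primrec₂.natPair.comp hg (Primrec₂.natPair.comp hf hh))

theorem primrec_jD {α : Type} [Primcodable α] {f g : α → ℕ} (hf : Primrec f) (hg : Primrec g) :
    Primrec (fun x => jD (f x) (g x)) :=
  Primrec.nat_add.comp (Primrec.nat_mul.comp (Primrec.const 3)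
    (Primrec₂.natPair.comp hf hg)) (Primrec.const 1)

theorem primrec_jE {α : Type} [Primcodable α] {f g : α → ℕ} (hf : Primrec f) (hg : Primrec g) :
    Primrec (fun x => jE (f x) (g x)) :=
  Primrec.nat_add.comp (Primrec.nat_mul.comp (Primrec.const 3)
    (Primrec₂.natPair.comp hf hg)) (Primrec.const 2)

theorem primrec_beta : Primrec beta := by
  have hp : Primrec (fun p : ℕ => 2 * p + 2) :=
    Primrec.nat_add.comp Primrec.nat_double (Primrec.const 2)
  have hX : Primrec (fun p : ℕ =>
      2 * Nat.pair (2 * p + 2) (Nat.pair (2 * p + 2) (2 * p + 2)) + 1) :=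
    Primrec.nat_double_succ.comp (Primrec₂.natPair.comp hp (Primrec₂.natPair.comp hp hp))
  exact Primrec.nat_add.comp (Primrec.nat_mul.comp (Primrec.const 3)
    (Primrec₂.natPair.comp (Primrec₂.natPair.comp hX hX)
      (Primrec₂.natPair.comp hX (Primrec₂.natPair.comp hX hX)))) (Primrec.const 3)

/-- Bounded quantifier with parameters (from `PrimrecRel.forall_lt` or directly: the predicate
`fun x => ∀ j < b x, R x j`). Suggestion: `∀ j < b, R x j ↔ ∀ j ∈ List.range b, R x j` and
`PrimrecRel.forall_mem_list`. -/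
theorem primrec_ball {α : Type} [Primcodable α] {b : α → ℕ} {R : α → ℕ → Prop}
    (hb : Primrec b) (hR : PrimrecRel R) : PrimrecPred (fun x => ∀ j < b x, R x j) := by
  have h1 : PrimrecPred (fun x => ∀ a ∈ List.range (b x), Function.swap R a x) :=
    (hR.swap.forall_mem_list).comp (Primrec.list_range.comp hb) Primrec.id
  refine h1.of_eq fun x => ?_
  simp only [List.mem_range, Function.swap]

/-- Implication, equivalence, conjunction of primitive recursive predicates
(`PrimrecPred.and`, `.or`, `.not`). -/
theorem PP_imp {α : Type} [Primcodable α] {p q : α → Prop} (hp : PrimrecPred p)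
    (hq : PrimrecPred q) : PrimrecPred (fun x => p x → q x) :=
  (hp.not.or hq).of_eq fun _ => imp_iff_not_or.symm

theorem PP_iff {α : Type} [Primcodable α] {p q : α → Prop} (hp : PrimrecPred p)
    (hq : PrimrecPred q) : PrimrecPred (fun x => p x ↔ q x) :=
  ((PP_imp hp hq).and (PP_imp hq hp)).of_eq fun _ => iff_iff_implies_and_implies.symm

end Pool.Agent.LIN.S
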