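import Pool.Agent.LIN.S.A3

/-!
# [LIN-SA4] the local conditions are primitive recursive
-/

namespace Pool.Agent.LIN.S

open FirstOrder

variable {L : FirstOrder.Language.{0, 0}}

/-- The truth value of a judgement with primitive recursive code. -/
theorem PP_bit {α : Type} [Primcodable α] {m i : α → ℕ} (hm : Primrec m) (hi : Primrec i) :
    PrimrecPred (fun x => (m x).testBit (i x) = true) :=
  Primrec.eq.comp (primrec_testBit.comp hm hi) (Primrec.const true)

section
variable {α : Type} [Primcodable α]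

theorem A4_lin (a b : ℕ) {c : α → ℕ} (hc : Primrec c) : Primrec (fun x => a * c x + b) :=
  Primrec.nat_add.comp (Primrec.nat_mul.comp (Primrec.const a) hc) (Primrec.const b)

theorem A4_u1 {c : α → ℕ} (hc : Primrec c) : Primrec (fun x => (Nat.unpair (c x)).1) :=
  Primrec.fst.comp (Primrec.unpair.comp hc)

theorem A4_u2 {c : α → ℕ} (hc : Primrec c) : Primrec (fun x => (Nat.unpair (c x)).2) :=
  Primrec.snd.comp (Primrec.unpair.comp hc)

theorem A4_D {m n c b : α → ℕ} (hm : Primrec m) (hn : Primrec n) (hc : Primrec c)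
    (hb : Primrec b) : PrimrecPred (fun x => ∀ j < b x,
      (m x).testBit (jD (n x) (argc (Nat.unpair (c x)).2 j)) = true) := by
  refine primrec_ball hb (R := fun x j =>
    (m x).testBit (jD (n x) (argc (Nat.unpair (c x)).2 j)) = true) ?_
  exact PP_bit (α := α × ℕ) (hm.comp Primrec.fst) (primrec_jD (hn.comp Primrec.fst)
    (primrec_argc.comp ((A4_u2 hc).comp Primrec.fst) Primrec.snd))

theorem A4_E {m n c e n' c' e' b : α → ℕ} (hm : Primrec m) (hn : Primrec n) (hc : Primrec c)
    (he : Primrec e) (hn' : Primrec n') (hc' : Primrec c') (he' : Primrec e') (hb : Primrec b) :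
    PrimrecPred (fun x => ∀ j < b x,
      (m x).testBit (jE (cl (n x) (argc (Nat.unpair (c x)).2 j) (e x))
        (cl (n' x) (argc (Nat.unpair (c' x)).2 j) (e' x))) = true) := by
  refine primrec_ball hb (R := fun x j =>
    (m x).testBit (jE (cl (n x) (argc (Nat.unpair (c x)).2 j) (e x))
        (cl (n' x) (argc (Nat.unpair (c' x)).2 j) (e' x))) = true) ?_
  exact PP_bit (α := α × ℕ) (hm.comp Primrec.fst) (primrec_jE
    (primrec_cl (hn.comp Primrec.fst) (primrec_argc.comp ((A4_u2 hc).comp Primrec.fst)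
      Primrec.snd) (he.comp Primrec.fst))
    (primrec_cl (hn'.comp Primrec.fst) (primrec_argc.comp ((A4_u2 hc').comp Primrec.fst)
      Primrec.snd) (he'.comp Primrec.fst)))

variable {E : Enum L} {m n c e n' c' e' a : α → ℕ} (hm : Primrec m) (hn : Primrec n)
  (hc : Primrec c) (he : Primrec e) (hn' : Primrec n') (hc' : Primrec c') (he' : Primrec e')
  (ha : Primrec a)

include hm hn hc in
theorem A4_K1 : PrimrecPred (fun x => K1 (Nat.testBit (m x)) (n x) (c x)) := by
  unfold K1
  exact PP_iff (PP_bit hm (primrec_jD hn (Primrec.nat_double.comp hc))) (Primrec.nat_lt.comp hc hn)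

include hm hn hc in
theorem A4_K2 : PrimrecPred (fun x => K2 E (Nat.testBit (m x)) (n x) (c x)) := by
  unfold K2
  exact PP_iff (PP_bit hm (primrec_jD hn (Primrec.nat_double_succ.comp hc)))
    ((Primrec.nat_lt.comp (A4_u1 hc) (Primrec.const E.nF)).and
      (A4_D hm hn hc ((primrec_aF E).comp (A4_u1 hc))))

include hm hn he in
theorem A4_K3 : PrimrecPred (fun x => K3 (Nat.testBit (m x)) (n x) (e x)) := by
  unfold K3
  exact (PP_bit hm (primrec_jT hn (Primrec.const 0) he)).not

include hm hn hc he in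
theorem A4_K4 : PrimrecPred (fun x => K4 (Nat.testBit (m x)) (n x) (c x) (e x)) := by
  unfold K4
  exact PP_iff (PP_bit hm (primrec_jT hn (A4_lin 4 1 hc) he))
    ((PP_bit hm (primrec_jD hn (A4_u1 hc))).and ((PP_bit hm (primrec_jD hn (A4_u2 hc))).and
      (PP_bit hm (primrec_jE (primrec_cl hn (A4_u1 hc) he) (primrec_cl hn (A4_u2 hc) he)))))

include hm hn hc he in
theorem A4_K5 : PrimrecPred (fun x => K5 E (Nat.testBit (m x)) (n x) (c x) (e x)) := by
  unfold K5
  exact PP_imp (PP_bit hm (primrec_jT hn (A4_lin 4 2 hc) he))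
    ((Primrec.nat_lt.comp (A4_u1 hc) (Primrec.const E.nR)).and
      (A4_D hm hn hc ((primrec_aR E).comp (A4_u1 hc))))

include hm hn hc he hn' hc' he' in
theorem A4_K5' : PrimrecPred (fun x => K5' E (Nat.testBit (m x)) (n x) (c x) (e x) (n' x) (c' x)
    (e' x)) := by
  unfold K5'
  exact PP_imp (PP_bit hm (primrec_jT hn (A4_lin 4 2 hc) he))
    (PP_imp (Primrec.eq.comp (A4_u1 hc) (A4_u1 hc'))
      (PP_imp (A4_D hm hn' hc' ((primrec_aR E).comp (A4_u1 hc)))
        (PP_imp (A4_E hm hn hc he hn' hc' he' ((primrec_aR E).comp (A4_u1 hc)))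
          (PP_bit hm (primrec_jT hn' (A4_lin 4 2 hc') he')))))

include hm hn hc he in
theorem A4_K6 : PrimrecPred (fun x => K6 (Nat.testBit (m x)) (n x) (c x) (e x)) := by
  unfold K6
  exact PP_iff (PP_bit hm (primrec_jT hn (A4_lin 4 3 hc) he))
    (PP_imp (PP_bit hm (primrec_jT hn (A4_u1 hc) he)) (PP_bit hm (primrec_jT hn (A4_u2 hc) he)))

include hm hn hc he ha in
theorem A4_K7 : PrimrecPred (fun x => K7 (Nat.testBit (m x)) (n x) (c x) (e x) (a x)) := by
  unfold K7
  exact PP_imp (PP_bit hm (primrec_jT hn (A4_lin 4 4 hc) he))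
    (PP_bit hm (primrec_jT (Primrec.succ.comp hn) hc (Primrec₂.natPair.comp ha he)))

include hm hn hc he in
theorem A4_K8 : PrimrecPred (fun x => K8 (Nat.testBit (m x)) (n x) (c x) (e x)) := by
  unfold K8
  exact PP_imp (PP_bit hm (primrec_jT (Primrec.succ.comp hn) hc
      (Primrec₂.natPair.comp (primrec_wit hn hc he) he)))
    (PP_bit hm (primrec_jT hn (A4_lin 4 4 hc) he))

include hm hn in
theorem A4_K9 : PrimrecPred (fun x => K9 (Nat.testBit (m x)) (n x)) := by
  unfold K9
  exact PP_bit hm (primrec_jE hn hn)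

include hm hn hc he in
theorem A4_K10 : PrimrecPred (fun x => K10 (Nat.testBit (m x)) (n x) (c x) (e x)) := by
  unfold K10
  exact PP_imp (PP_bit hm (primrec_jE hn hc)) (PP_imp (PP_bit hm (primrec_jE hn he))
    (PP_bit hm (primrec_jE hc he)))

include hm hn hc he in
theorem A4_K11 : PrimrecPred (fun x => K11 (Nat.testBit (m x)) (n x) (c x) (e x)) := by
  unfold K11
  exact PP_imp (Primrec.nat_lt.comp hc hn)
    (PP_bit hm (primrec_jE (primrec_cl hn (Primrec.nat_double.comp hc) he)
      (primrec_argc.comp he hc)))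

include hm hn hc he hn' hc' he' in
theorem A4_K12 : PrimrecPred (fun x => K12 E (Nat.testBit (m x)) (n x) (c x) (e x) (n' x) (c' x)
    (e' x)) := by
  unfold K12
  exact PP_imp (Primrec.nat_lt.comp (A4_u1 hc) (Primrec.const E.nF))
    (PP_imp (Primrec.eq.comp (A4_u1 hc) (A4_u1 hc'))
      (PP_imp (A4_D hm hn hc ((primrec_aF E).comp (A4_u1 hc)))
        (PP_imp (A4_D hm hn' hc' ((primrec_aF E).comp (A4_u1 hc)))
          (PP_imp (A4_E hm hn hc he hn' hc' he' ((primrec_aF E).comp (A4_u1 hc)))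
            (PP_bit hm (primrec_jE (primrec_cl hn (Primrec.nat_double_succ.comp hc) he)
              (primrec_cl hn' (Primrec.nat_double_succ.comp hc') he')))))))

end

/-- `(p, m) ↦ chk E p (m.testBit)` is primitive recursive. One conjunct after the other
(suggestion: one lemma for each of `K1 .. K12`), with `PP_bit`, `primrec_jT`, .., `primrec_ball`,
`PP_imp`, `PP_iff`, `PrimrecPred.and`; `Primrec.nat_lt`, `Primrec.eq` for `<` and `=`. -/
theorem PP_chk (E : Enum L) : PrimrecPred (fun x : ℕ × ℕ => chk E x.1 (Nat.testBit x.2)) := by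
  have hm : Primrec (fun x : ℕ × ℕ => x.2) := Primrec.snd
  have b : ∀ j, Primrec (fun x : ℕ × ℕ => argc x.1 j) := fun j =>
    primrec_argc.comp Primrec.fst (Primrec.const j)
  unfold chk
  exact (A4_K1 hm (b 0) (b 1)).and ((A4_K2 hm (b 0) (b 1)).and ((A4_K3 hm (b 0) (b 2)).and
    ((A4_K4 hm (b 0) (b 1) (b 2)).and ((A4_K5 hm (b 0) (b 1) (b 2)).and
    ((A4_K5' hm (b 0) (b 1) (b 2) (b 3) (b 4) (b 5)).and ((A4_K6 hm (b 0) (b 1) (b 2)).and
    ((A4_K7 hm (b 0) (b 1) (b 2) (b 6)).and ((A4_K8 hm (b 0) (b 1) (b 2)).and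
    ((A4_K9 hm (b 0)).and ((A4_K10 hm (b 0) (b 1) (b 2)).and ((A4_K11 hm (b 0) (b 1) (b 2)).and
    (A4_K12 hm (b 0) (b 1) (b 2) (b 3) (b 4) (b 5)))))))))))))

end Pool.Agent.LIN.S
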