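import Pool.Agent.LIN.S.A1
import Pool.Agent.LIN.S.A2
import Pool.Agent.LIN.S.A4

/-!
# [LIN-SA5] compactness and the c.e. set of unsatisfiable codes
-/

namespace Pool.Agent.LIN.S

open FirstOrder

variable {L : FirstOrder.Language.{0, 0}}

/-- Compactness of `ℕ → Bool`: the sets `{t | chk E p t}` and `{t | t i = true}` are closed
(they depend on finitely many coordinates, `chk_local`), so if all finite intersections are
nonempty then so is the whole intersection
(`IsCompact.nonempty_iInter_of_directed_nonempty_isCompact_isClosed` or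
`IsCompact.inter_iInter_nonempty`). -/
theorem compact (E : Enum L) (i : ℕ)
    (h : ∀ K, ∃ t : ℕ → Bool, (∀ p < K, chk E p t) ∧ t i = true) :
    ∃ t : ℕ → Bool, (∀ p, chk E p t) ∧ t i = true := by
  have hc : ∀ p, IsClosed {t : ℕ → Bool | chk E p t} := by
    intro p
    have h1 : Continuous (fun (t : ℕ → Bool) (j : Fin (beta p)) => t j) :=
      continuous_pi fun j => continuous_apply _
    have h2 : IsClosed {s : Fin (beta p) → Bool |
        chk E p (fun j => if hj : j < beta p then s ⟨j, hj⟩ else false)} := isClosed_discrete _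
    have h3 := h2.preimage h1
    have h4 : {t : ℕ → Bool | chk E p t} = (fun (t : ℕ → Bool) (j : Fin (beta p)) => t j) ⁻¹'
        {s : Fin (beta p) → Bool |
          chk E p (fun j => if hj : j < beta p then s ⟨j, hj⟩ else false)} := by
      ext t
      refine chk_local E p t _ fun j hj => ?_
      rw [dif_pos hj]
    rw [h4]
    exact h3
  have hi : IsClosed {t : ℕ → Bool | t i = true} :=
    isClosed_eq (continuous_apply i) continuous_const
  have key := IsCompact.nonempty_iInter_of_sequence_nonempty_isCompact_isClosed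
    (fun K => {t : ℕ → Bool | (∀ p < K, chk E p t) ∧ t i = true})
    (fun K t ht => ⟨fun p hp => ht.1 p (hp.trans (Nat.lt_succ_self K)), ht.2⟩)
    (fun K => h K) ?_ ?_
  · obtain ⟨t, ht⟩ := key
    rw [Set.mem_iInter] at ht
    exact ⟨t, fun p => (ht (p + 1)).1 p (Nat.lt_succ_self p), (ht 0).2⟩
  · refine IsClosed.isCompact ?_
    have h0 : {t : ℕ → Bool | (∀ p < 0, chk E p t) ∧ t i = true} = {t : ℕ → Bool | t i = true} := by
      ext t
      exact ⟨fun ht => ht.2, fun ht => ⟨fun p hp => absurd hp (Nat.not_lt_zero p), ht⟩⟩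
    rw [h0]
    exact hi
  · intro K
    have h0 : {t : ℕ → Bool | (∀ p < K, chk E p t) ∧ t i = true} =
        (⋂ p, ⋂ (_ : p < K), {t : ℕ → Bool | chk E p t}) ∩ {t : ℕ → Bool | t i = true} := by
      ext t
      simp only [Set.mem_ofPred_eq, Set.mem_inter_iff, Set.mem_iInter]
    rw [h0]
    exact (isClosed_iInter fun p => isClosed_iInter fun _ => hc p).inter hi

/-- A number with prescribed bits below `N`: `m = ∑ i < N, if t i then 2 ^ i else 0`
(`Nat.ofBits` if available, or induction on `N`). -/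
theorem exists_bits (t : ℕ → Bool) (N : ℕ) : ∃ m < 2 ^ N, ∀ i < N, m.testBit i = t i :=
  ⟨Nat.ofBits (fun j : Fin N => t j), Nat.ofBits_lt_two_pow _, fun i hi =>
    Nat.testBit_ofBits_lt _ i hi⟩

/-- Unsatisfiability is witnessed at a finite stage `K` (contrapositive of `compact`;
`exists_bits` with `N = max (beta K) (i + 1)`, `chk_local`, `beta_mono`; conversely a good `t`
gives the number `m`). -/
theorem unsat_iff (E : Enum L) (i : ℕ) :
    (¬ ∃ t : ℕ → Bool, Good E t ∧ t i = true) ↔
      ∃ K, ∀ m < 2 ^ (beta K + i + 1), ¬ ((∀ p < K, chk E p (Nat.testBit m)) ∧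
        Nat.testBit m i = true) := by
  constructor
  · intro h
    by_contra hK
    push Not at hK
    apply h
    obtain ⟨t, h1, h2⟩ := compact E i (fun K => by
      obtain ⟨m, _, h1, h2⟩ := hK K
      exact ⟨Nat.testBit m, h1, h2⟩)
    exact ⟨t, (good_iff E t).2 h1, h2⟩
  · rintro ⟨K, hK⟩ ⟨t, h1, h2⟩
    obtain ⟨m, hm, hb⟩ := exists_bits t (beta K + i + 1)
    refine hK m hm ⟨fun p hp => ?_, ?_⟩
    · refine (chk_local E p (Nat.testBit m) t fun j hj => hb j ?_).2 ((good_iff E t).1 h1 p)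
      have := beta_mono hp.le
      omega
    · rw [hb i (by omega)]
      exact h2

/-- An existential quantifier in front of a primitive recursive predicate. -/
theorem A5_re {P : ℕ × ℕ → Prop} (hP : PrimrecPred P) : REPred (fun c => ∃ K, P (c, K)) := by
  classical
  have hC : Computable₂ (fun c K : ℕ => decide (P (c, K))) := hP.decide.to_comp
  have h3 := (Partrec.rfind hC.partrec₂).dom_re
  refine h3.of_eq fun c => ?_
  rw [Nat.rfind_dom]
  constructor
  · rintro ⟨K, hK, _⟩
    exact ⟨K, of_decide_eq_true (Part.mem_some_iff.1 hK).symm⟩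
  · rintro ⟨K, hK⟩
    exact ⟨K, Part.mem_some_iff.2 (decide_eq_true hK).symm, fun _ => trivial⟩

/-- The stage predicate is primitive recursive (abstract form). -/
theorem A5_aux {Q : ℕ → (ℕ → Bool) → Prop}
    (hQ : PrimrecPred (fun x : ℕ × ℕ => Q x.1 (Nat.testBit x.2))) {b j : ℕ → ℕ}
    (hb : Primrec b) (hj : Primrec j) :
    PrimrecPred (fun x : ℕ × ℕ => ∀ m < 2 ^ (b x.2 + j x.1 + 1),
      ¬ ((∀ p < x.2, Q p (Nat.testBit m)) ∧ Nat.testBit m (j x.1) = true)) := by
  have hs : Primrec (fun x : ℕ × ℕ => b x.2 + j x.1 + 1) :=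
    Primrec.succ.comp (Primrec.nat_add.comp (hb.comp Primrec.snd) (hj.comp Primrec.fst))
  have hpow : Primrec (fun x : ℕ × ℕ => 2 ^ (b x.2 + j x.1 + 1)) := primrec_pow.comp hs
  have h0 : PrimrecRel (fun (y : (ℕ × ℕ) × ℕ) (p : ℕ) => Q p (Nat.testBit y.2)) :=
    hQ.comp (f := fun z : ((ℕ × ℕ) × ℕ) × ℕ => (z.2, z.1.2))
      (Primrec.pair Primrec.snd (Primrec.snd.comp Primrec.fst))
  have hb1 : Primrec (fun y : (ℕ × ℕ) × ℕ => y.1.2) := Primrec.snd.comp Primrec.fst
  have h1 : PrimrecPred (fun y : (ℕ × ℕ) × ℕ => ∀ p < y.1.2, Q p (Nat.testBit y.2)) :=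
    primrec_ball hb1 h0
  have h2 : PrimrecPred (fun y : (ℕ × ℕ) × ℕ => Nat.testBit y.2 (j y.1.1) = true) :=
    PP_bit Primrec.snd (hj.comp (Primrec.fst.comp Primrec.fst))
  have h3 : PrimrecRel (fun (x : ℕ × ℕ) (m : ℕ) => ¬ ((∀ p < x.2, Q p (Nat.testBit m)) ∧
      Nat.testBit m (j x.1) = true)) := (h1.and h2).not
  exact primrec_ball hpow h3

/-- The stage predicate is primitive recursive, hence the set is c.e.
(`PP_chk`, `primrec_ball`, `primrec_pow`, `primrec_beta`, `primrec_jT`; then
`REPred` of `∃ K, P (c, K)` for a primitive recursive `P`: `Partrec.rfind` /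
`REPred` via `Nat.rfind`, e.g. `ComputablePred`→ `Partrec` domain.) -/
theorem re_unsat (E : Enum L) :
    REPred (fun c : ℕ => ¬ ∃ t : ℕ → Bool, Good E t ∧ t (jT 0 c 0) = true) := by
  have hj : Primrec (fun c : ℕ => jT 0 c 0) :=
    primrec_jT (Primrec.const 0) Primrec.id (Primrec.const 0)
  exact (A5_re (A5_aux (PP_chk E) primrec_beta hj)).of_eq fun c =>
    (unsat_iff E (jT 0 c 0)).symm

end Pool.Agent.LIN.S
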