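import Pool.Agent.LIN.S.A1

/-!
# [LIN] block S, part B: from a good valuation to a model (definitions)
-/

namespace Pool.Agent.LIN.S

open FirstOrder

variable {L : FirstOrder.Language.{0, 0}}

theorem Good.symm {E : Enum L} {t : ℕ → Bool} (h : Good E t) {a b : ℕ}
    (hab : t (jE a b) = true) : t (jE b a) = true := h.k10 a b a hab (h.k9 a)

theorem Good.trans {E : Enum L} {t : ℕ → Bool} (h : Good E t) {a b c : ℕ}
    (hab : t (jE a b) = true) (hbc : t (jE b c) = true) : t (jE a c) = true :=
  h.k10 b a c (h.symm hab) hbc

/-- Equality of names. -/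
def nset {E : Enum L} {t : ℕ → Bool} (h : Good E t) : Setoid ℕ where
  r a b := t (jE a b) = true
  iseqv := ⟨fun a => h.k9 a, fun hab => h.symm hab, fun hab hbc => h.trans hab hbc⟩

/-- The term model: names modulo equality. -/
def Mod {E : Enum L} {t : ℕ → Bool} (h : Good E t) : Type := Quotient (nset h)

/-- The class of a name. -/
def mk {E : Enum L} {t : ℕ → Bool} (h : Good E t) (a : ℕ) : Mod h := Quotient.mk (nset h) a

/-- A name for an element of the term model. -/
noncomputable def nm {E : Enum L} {t : ℕ → Bool} (h : Good E t) (x : Mod h) : ℕ :=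
  Quotient.out x

theorem mk_nm {E : Enum L} {t : ℕ → Bool} (h : Good E t) (x : Mod h) : mk h (nm h x) = x :=
  Quotient.out_eq x

theorem mk_eq {E : Enum L} {t : ℕ → Bool} (h : Good E t) {a b : ℕ} :
    mk h a = mk h b ↔ t (jE a b) = true := Quotient.eq

/-- The code of the list of the variables `0, 1, ..., k - 1`. -/
def lvars (k : ℕ) : ℕ := lcode ((List.range k).map (fun j => 2 * j))

/-- The code of the list of names of the arguments. -/
noncomputable def largs {E : Enum L} {t : ℕ → Bool} (h : Good E t) {k : ℕ}
    (x : Fin k → Mod h) : ℕ := lcode (List.ofFn fun j => nm h (x j))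

/-- The structure of the term model: `f(x_0, ..)` is the class of the closure
`f(v_0, .., v_(k-1))` in the environment of names of the arguments. -/
noncomputable def modStr {E : Enum L} {t : ℕ → Bool} (h : Good E t) : L.Structure (Mod h) where
  funMap {k} f x := mk h (cl k (2 * Nat.pair (E.F.symm ⟨k, f⟩ : ℕ) (lvars k) + 1) (largs h x))
  RelMap {k} r x := t (jT k (4 * Nat.pair (E.R.symm ⟨k, r⟩ : ℕ) (lvars k) + 2) (largs h x)) = true

end Pool.Agent.LIN.S
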