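import Pool.Agent.LIN.S.B0

/-!
# [LIN-SB1] decodability, variables
-/

namespace Pool.Agent.LIN.S

open FirstOrder

variable {L : FirstOrder.Language.{0, 0}}

/-- Unfolding of `termOf` (rewrite with `termOf`, `if` on `(2 * c) % 2`). -/
theorem termOf_even (E : Enum L) (n c : ℕ) (h : c < n) :
    termOf E n (2 * c) = some (FirstOrder.Language.Term.var (Sum.inr ⟨n - 1 - c, by omega⟩)) := by
  rw [termOf, dif_pos (by omega : 2 * c % 2 = 0), dif_pos (by omega : 2 * c / 2 < n)]
  congr 3
  ext
  show n - 1 - 2 * c / 2 = n - 1 - c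
  omega

theorem termOf_even_none (E : Enum L) (n c : ℕ) (h : ¬ c < n) : termOf E n (2 * c) = none := by
  rw [termOf, dif_pos (by omega : 2 * c % 2 = 0), dif_neg (by omega : ¬ 2 * c / 2 < n)]

/-- The unfolding of `termOf` at an odd code. -/
theorem B1_odd (E : Enum L) (n c : ℕ) : termOf E n (2 * c + 1) =
    if hi : (Nat.unpair c).1 < E.nF then
      if h : ∀ j : Fin (E.F ⟨_, hi⟩).1, (termOf E n (argc (Nat.unpair c).2 j)).isSome then
        some (FirstOrder.Language.Term.func (E.F ⟨_, hi⟩).2
          (fun j => (termOf E n (argc (Nat.unpair c).2 j)).get (h j)))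
      else none
    else none := by
  have key : ∀ d, d = c → (if hi : (Nat.unpair d).1 < E.nF then
      if h : ∀ j : Fin (E.F ⟨_, hi⟩).1, (termOf E n (argc (Nat.unpair d).2 j)).isSome then
        some (FirstOrder.Language.Term.func (E.F ⟨_, hi⟩).2
          (fun j => (termOf E n (argc (Nat.unpair d).2 j)).get (h j)))
      else none
    else none) = (if hi : (Nat.unpair c).1 < E.nF then
      if h : ∀ j : Fin (E.F ⟨_, hi⟩).1, (termOf E n (argc (Nat.unpair c).2 j)).isSome then
        some (FirstOrder.Language.Term.func (E.F ⟨_, hi⟩).2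
          (fun j => (termOf E n (argc (Nat.unpair c).2 j)).get (h j)))
      else none
    else none) := by
    rintro d rfl
    rfl
  rw [termOf, dif_neg (by omega : ¬ (2 * c + 1) % 2 = 0)]
  exact key ((2 * c + 1) / 2) (by omega)

/-- `termOf E n (2 c + 1)` is decodable iff the symbol number is `< nF` and all arguments are
decodable. -/
theorem termOf_odd_isSome (E : Enum L) (n c : ℕ) :
    (termOf E n (2 * c + 1)).isSome = true ↔ (Nat.unpair c).1 < E.nF ∧
      ∀ j < aF E (Nat.unpair c).1, (termOf E n (argc (Nat.unpair c).2 j)).isSome = true := by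
  rw [B1_odd]
  by_cases hi : (Nat.unpair c).1 < E.nF
  · have ha : aF E (Nat.unpair c).1 = (E.F ⟨_, hi⟩).1 := dif_pos hi
    rw [dif_pos hi, ha]
    by_cases h : ∀ j : Fin (E.F ⟨_, hi⟩).1, (termOf E n (argc (Nat.unpair c).2 j)).isSome = true
    · rw [dif_pos h]
      exact ⟨fun _ => ⟨hi, fun j hj => h ⟨j, hj⟩⟩, fun _ => rfl⟩
    · rw [dif_neg h]
      exact ⟨fun hf => absurd hf (by simp), fun hf => (h fun j => hf.2 j j.2).elim⟩
  · rw [dif_neg hi]
    exact ⟨fun hf => absurd hf (by simp), fun hf => absurd hf.1 hi⟩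

/-- The value of a decodable `termOf E n (2 c + 1)`. -/
theorem termOf_odd (E : Enum L) (n c : ℕ) (hi : (Nat.unpair c).1 < E.nF)
    (h : ∀ j : Fin (E.F ⟨_, hi⟩).1, (termOf E n (argc (Nat.unpair c).2 j)).isSome = true) :
    termOf E n (2 * c + 1) = some (FirstOrder.Language.Term.func (E.F ⟨_, hi⟩).2
      (fun j => (termOf E n (argc (Nat.unpair c).2 j)).get (h j))) := by
  rw [B1_odd, dif_pos hi, dif_pos h]

/-- Strong induction on `c` with `k1`, `k2` and the three lemmas above. -/
theorem dec_iff {E : Enum L} {t : ℕ → Bool} (h : Good E t) (n c : ℕ) :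
    t (jD n c) = true ↔ (termOf E n c).isSome = true := by
  induction c using Nat.strong_induction_on with
  | _ c ih =>
    rcases Nat.even_or_odd' c with ⟨d, rfl | rfl⟩
    · have h1 : t (jD n (2 * d)) = true ↔ d < n := h.k1 n d
      rw [h1]
      by_cases hd : d < n
      · rw [termOf_even E n d hd]
        exact ⟨fun _ => rfl, fun _ => hd⟩
      · rw [termOf_even_none E n d hd]
        exact ⟨fun hf => absurd hf hd, fun hf => absurd hf (by simp)⟩
    · have h1 : t (jD n (2 * d + 1)) = true ↔ (Nat.unpair d).1 < E.nF ∧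
        ∀ j < aF E (Nat.unpair d).1, t (jD n (argc (Nat.unpair d).2 j)) = true := h.k2 n d
      rw [h1, termOf_odd_isSome]
      have h2 : ∀ j, t (jD n (argc (Nat.unpair d).2 j)) = true ↔
          (termOf E n (argc (Nat.unpair d).2 j)).isSome = true := fun j => by
        refine ih _ ?_
        have h3 := argc_le (Nat.unpair d).2 j
        have h4 := Nat.unpair_right_le d
        omega
      simp only [h2]

end Pool.Agent.LIN.S
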