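import Pool.Agent.LIN.S.B1

/-!
# [LIN-SB2] values of terms in the term model
-/

namespace Pool.Agent.LIN.S

open FirstOrder

variable {L : FirstOrder.Language.{0, 0}}

theorem argc_lvars {k j : ℕ} (hj : j < k) : argc (lvars k) j = 2 * j := by
  have h1 : j < ((List.range k).map (fun j => 2 * j)).length := by
    rw [List.length_map, List.length_range]
    exact hj
  have h2 := argc_lcode ((List.range k).map (fun j => 2 * j)) j h1
  rw [List.getElem_map, List.getElem_range] at h2
  exact h2

theorem argc_largs {E : Enum L} {t : ℕ → Bool} (h : Good E t) {k : ℕ} (x : Fin k → Mod h)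
    (j : Fin k) : argc (largs h x) j = nm h (x j) := by
  have h1 : (j : ℕ) < (List.ofFn fun j => nm h (x j)).length := by
    rw [List.length_ofFn]
    exact j.2
  have h2 := argc_lcode (List.ofFn fun j => nm h (x j)) j h1
  rw [List.getElem_ofFn] at h2
  exact h2

/-- The class of an application: if all arguments are decodable then the closure
`f(args)` in `(n, e)` is `funMap f` of the classes of the closures of the arguments.
Proof: `k12` with `c = pair i l`, `c' = pair i (lvars k)`, `n' = k`, `e' = largs h x`,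
`x j = mk h (cl n (argc l j) e)`; the closure of the variable `2 j` in `(k, e')` is equal to
`argc e' j = nm h (x j)` by `k11`, and `mk h (nm h (x j)) = x j`. The variables `2 j`, `j < k`,
are decodable by `k1`. -/
theorem mk_app {E : Enum L} {t : ℕ → Bool} (h : Good E t) (n i l e : ℕ) (hi : i < E.nF)
    (hd : ∀ j < (E.F ⟨i, hi⟩).1, t (jD n (argc l j)) = true) :
    mk h (cl n (2 * Nat.pair i l + 1) e) =
      (modStr h).funMap (E.F ⟨i, hi⟩).2 (fun j => mk h (cl n (argc l j) e)) := by
  have hsym : ((E.F.symm ⟨(E.F ⟨i, hi⟩).1, (E.F ⟨i, hi⟩).2⟩ : Fin E.nF) : ℕ) = i := by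
    have h1 : E.F.symm ⟨(E.F ⟨i, hi⟩).1, (E.F ⟨i, hi⟩).2⟩ = ⟨i, hi⟩ :=
      E.F.symm_apply_apply ⟨i, hi⟩
    rw [h1]
  have hf : (modStr h).funMap (E.F ⟨i, hi⟩).2 (fun j => mk h (cl n (argc l j) e)) =
      mk h (cl (E.F ⟨i, hi⟩).1 (2 * Nat.pair i (lvars (E.F ⟨i, hi⟩).1) + 1)
        (largs h (fun j : Fin (E.F ⟨i, hi⟩).1 => mk h (cl n (argc l j) e)))) := by
    show mk h (cl (E.F ⟨i, hi⟩).1 (2 * Nat.pair
      ((E.F.symm ⟨(E.F ⟨i, hi⟩).1, (E.F ⟨i, hi⟩).2⟩ : Fin E.nF) : ℕ) (lvars (E.F ⟨i, hi⟩).1) + 1)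
        (largs h (fun j : Fin (E.F ⟨i, hi⟩).1 => mk h (cl n (argc l j) e)))) = _
    rw [hsym]
  rw [hf, mk_eq]
  have ha : aF E i = (E.F ⟨i, hi⟩).1 := dif_pos hi
  have key := h.k12 n (Nat.pair i l) e (E.F ⟨i, hi⟩).1
    (Nat.pair i (lvars (E.F ⟨i, hi⟩).1))
    (largs h (fun j : Fin (E.F ⟨i, hi⟩).1 => mk h (cl n (argc l j) e)))
  unfold K12 at key
  simp only [Nat.unpair_pair, ha] at key
  refine key hi trivial hd (fun j hj => ?_) (fun j hj => ?_)
  · rw [argc_lvars hj]
    exact (h.k1 _ j).2 hj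
  · rw [argc_lvars hj]
    have h1 := h.k11 (E.F ⟨i, hi⟩).1 j
      (largs h (fun j : Fin (E.F ⟨i, hi⟩).1 => mk h (cl n (argc l j) e))) hj
    have h2 := argc_largs h (fun j : Fin (E.F ⟨i, hi⟩).1 => mk h (cl n (argc l j) e)) ⟨j, hj⟩
    have h3 : t (jE (nm h (mk h (cl n (argc l j) e))) (cl n (argc l j) e)) = true :=
      (mk_eq h).1 (mk_nm h _)
    refine h.symm (h.trans h1 ?_)
    have h4 : argc (largs h (fun j : Fin (E.F ⟨i, hi⟩).1 => mk h (cl n (argc l j) e))) j =
        nm h (mk h (cl n (argc l j) e)) := h2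
    rw [h4]
    exact h3

/-- Value of a decodable term code. Strong induction on `c` (generalizing `τ`): even `c = 2 k`:
`termOf_even`, `k11`, `n - 1 - (n - 1 - k) = k`; odd: `termOf_odd`, `mk_app`, `dec_iff`. -/
theorem realize_termOf {E : Enum L} {t : ℕ → Bool} (h : Good E t) (n c e : ℕ)
    (τ : L.Term (Empty ⊕ Fin n)) (hτ : termOf E n c = some τ) (v : Empty → Mod h) :
    letI := modStr h
    mk h (cl n c e) = τ.realize (Sum.elim v (asg (mk h) n e)) := by
  letI := modStr h
  induction c using Nat.strong_induction_on generalizing τ with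
  | _ c ih =>
    rcases Nat.even_or_odd' c with ⟨d, rfl | rfl⟩
    · by_cases hd : d < n
      · rw [termOf_even E n d hd] at hτ
        obtain rfl := Option.some.inj hτ
        show mk h (cl n (2 * d) e) = mk h (argc e (n - 1 - (n - 1 - d)))
        rw [(by omega : n - 1 - (n - 1 - d) = d)]
        exact (mk_eq h).2 (h.k11 n d e hd)
      · rw [termOf_even_none E n d hd] at hτ
        exact absurd hτ (by simp)
    · have hs : (termOf E n (2 * d + 1)).isSome = true := by
        rw [hτ]
        rfl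
      obtain ⟨hi, hd⟩ := (termOf_odd_isSome E n d).1 hs
      have ha : aF E (Nat.unpair d).1 = (E.F ⟨_, hi⟩).1 := dif_pos hi
      rw [ha] at hd
      have hd' : ∀ j : Fin (E.F ⟨_, hi⟩).1,
          (termOf E n (argc (Nat.unpair d).2 j)).isSome = true := fun j => hd j j.2
      rw [termOf_odd E n d hi hd'] at hτ
      obtain rfl := Option.some.inj hτ
      have h1 := mk_app h n (Nat.unpair d).1 (Nat.unpair d).2 e hi
        (fun j hj => (dec_iff h n _).2 (hd j hj))
      rw [Nat.pair_unpair] at h1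
      rw [h1]
      show (modStr h).funMap (E.F ⟨_, hi⟩).2 (fun j => mk h (cl n (argc (Nat.unpair d).2 j) e)) =
        (modStr h).funMap (E.F ⟨_, hi⟩).2 (fun j =>
          ((termOf E n (argc (Nat.unpair d).2 j)).get (hd' j)).realize
            (Sum.elim v (asg (mk h) n e)))
      congr 1
      funext j
      refine ih _ ?_ _ (Option.some_get _).symm
      have h3 := argc_le (Nat.unpair d).2 j
      have h4 := Nat.unpair_right_le d
      omega

end Pool.Agent.LIN.S
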