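import Pool.Agent.LIN.S.B2

/-!
# [LIN-SB3] unfolding of `formOf`, environments
-/

namespace Pool.Agent.LIN.S

open FirstOrder

variable {L : FirstOrder.Language.{0, 0}}

theorem formOf_zero (E : Enum L) (n : ℕ) : formOf E n 0 = ⊥ := by
  rw [formOf, dif_pos rfl]

theorem formOf_eq_some (E : Enum L) (n c : ℕ) (τ σ : L.Term (Empty ⊕ Fin n))
    (h1 : termOf E n (Nat.unpair c).1 = some τ) (h2 : termOf E n (Nat.unpair c).2 = some σ) :
    formOf E n (4 * c + 1) = FirstOrder.Language.BoundedFormula.equal τ σ := by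
  rw [formOf, dif_neg (by omega : ¬ 4 * c + 1 = 0), dif_pos (by omega : (4 * c + 1 - 1) % 4 = 0),
    (by omega : (4 * c + 1 - 1) / 4 = c), h1, h2]

theorem formOf_eq_none (E : Enum L) (n c : ℕ)
    (h : ¬ ((termOf E n (Nat.unpair c).1).isSome = true ∧
      (termOf E n (Nat.unpair c).2).isSome = true)) :
    formOf E n (4 * c + 1) = ⊥ := by
  rw [formOf, dif_neg (by omega : ¬ 4 * c + 1 = 0), dif_pos (by omega : (4 * c + 1 - 1) % 4 = 0),
    (by omega : (4 * c + 1 - 1) / 4 = c)]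
  rcases h1 : termOf E n (Nat.unpair c).1 with _ | τ
  · rfl
  · rcases h2 : termOf E n (Nat.unpair c).2 with _ | σ
    · rfl
    · exact absurd ⟨by rw [h1]; rfl, by rw [h2]; rfl⟩ h

/-- The unfolding of `formOf` at a relation code. -/
theorem B3_rel (E : Enum L) (n c : ℕ) : formOf E n (4 * c + 2) =
    if hi : (Nat.unpair c).1 < E.nR then
      if h : ∀ j : Fin (E.R ⟨_, hi⟩).1,
          (termOf E n (argc (Nat.unpair c).2 j)).isSome then
        FirstOrder.Language.BoundedFormula.rel (E.R ⟨_, hi⟩).2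
          (fun j => (termOf E n (argc (Nat.unpair c).2 j)).get (h j))
      else ⊥
    else ⊥ := by
  have key : ∀ d, d = c → (if hi : (Nat.unpair d).1 < E.nR then
      if h : ∀ j : Fin (E.R ⟨_, hi⟩).1,
          (termOf E n (argc (Nat.unpair d).2 j)).isSome then
        FirstOrder.Language.BoundedFormula.rel (E.R ⟨_, hi⟩).2
          (fun j => (termOf E n (argc (Nat.unpair d).2 j)).get (h j))
      else (⊥ : L.BoundedFormula Empty n)
    else ⊥) = (if hi : (Nat.unpair c).1 < E.nR then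
      if h : ∀ j : Fin (E.R ⟨_, hi⟩).1,
          (termOf E n (argc (Nat.unpair c).2 j)).isSome then
        FirstOrder.Language.BoundedFormula.rel (E.R ⟨_, hi⟩).2
          (fun j => (termOf E n (argc (Nat.unpair c).2 j)).get (h j))
      else ⊥
    else ⊥) := by
    rintro d rfl
    rfl
  rw [formOf, dif_neg (by omega : ¬ 4 * c + 2 = 0),
    dif_neg (by omega : ¬ (4 * c + 2 - 1) % 4 = 0), dif_pos (by omega : (4 * c + 2 - 1) % 4 = 1)]
  exact key ((4 * c + 2 - 1) / 4) (by omega)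

theorem formOf_rel_some (E : Enum L) (n c : ℕ) (hi : (Nat.unpair c).1 < E.nR)
    (h : ∀ j : Fin (E.R ⟨_, hi⟩).1, (termOf E n (argc (Nat.unpair c).2 j)).isSome = true) :
    formOf E n (4 * c + 2) = FirstOrder.Language.BoundedFormula.rel (E.R ⟨_, hi⟩).2
      (fun j => (termOf E n (argc (Nat.unpair c).2 j)).get (h j)) := by
  rw [B3_rel, dif_pos hi, dif_pos h]

theorem formOf_rel_none (E : Enum L) (n c : ℕ)
    (h : ¬ ((Nat.unpair c).1 < E.nR ∧ ∀ j < aR E (Nat.unpair c).1,
      (termOf E n (argc (Nat.unpair c).2 j)).isSome = true)) :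
    formOf E n (4 * c + 2) = ⊥ := by
  rw [B3_rel]
  by_cases hi : (Nat.unpair c).1 < E.nR
  · rw [dif_pos hi, dif_neg]
    intro h1
    refine h ⟨hi, fun j hj => ?_⟩
    have ha : aR E (Nat.unpair c).1 = (E.R ⟨_, hi⟩).1 := dif_pos hi
    rw [ha] at hj
    exact h1 ⟨j, hj⟩
  · rw [dif_neg hi]

theorem formOf_imp (E : Enum L) (n c : ℕ) :
    formOf E n (4 * c + 3) = FirstOrder.Language.BoundedFormula.imp
      (formOf E n (Nat.unpair c).1) (formOf E n (Nat.unpair c).2) := by
  rw [formOf, dif_neg (by omega : ¬ 4 * c + 3 = 0),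
    dif_neg (by omega : ¬ (4 * c + 3 - 1) % 4 = 0), dif_neg (by omega : ¬ (4 * c + 3 - 1) % 4 = 1),
    dif_pos (by omega : (4 * c + 3 - 1) % 4 = 2)]
  show FirstOrder.Language.BoundedFormula.imp
    (formOf E n (Nat.unpair ((4 * c + 3 - 1) / 4)).1)
    (formOf E n (Nat.unpair ((4 * c + 3 - 1) / 4)).2) = _
  rw [(by omega : (4 * c + 3 - 1) / 4 = c)]

theorem formOf_all (E : Enum L) (n c : ℕ) :
    formOf E n (4 * c + 4) = FirstOrder.Language.BoundedFormula.all (formOf E (n + 1) c) := by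
  rw [formOf, dif_neg (by omega : ¬ 4 * c + 4 = 0),
    dif_neg (by omega : ¬ (4 * c + 4 - 1) % 4 = 0), dif_neg (by omega : ¬ (4 * c + 4 - 1) % 4 = 1),
    dif_neg (by omega : ¬ (4 * c + 4 - 1) % 4 = 2)]
  show FirstOrder.Language.BoundedFormula.all (formOf E (n + 1) ((4 * c + 4 - 1) / 4)) = _
  rw [(by omega : (4 * c + 4 - 1) / 4 = c)]

/-- The assignment of the environment `pair a e`: the new variable is the last one. -/
theorem asg_cons {M : Type} (f : ℕ → M) (n a e : ℕ) :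
    asg f (n + 1) (Nat.pair a e) = Fin.snoc (asg f n e) (f a) := by
  funext i
  refine Fin.lastCases ?_ (fun j => ?_) i
  · rw [Fin.snoc_last]
    show f (argc (Nat.pair a e) (n + 1 - 1 - n)) = f a
    rw [(by omega : n + 1 - 1 - n = 0), argc_pair_zero]
  · rw [Fin.snoc_castSucc]
    show f (argc (Nat.pair a e) (n + 1 - 1 - (j : ℕ))) = f (argc e (n - 1 - (j : ℕ)))
    have hj := j.2
    rw [(by omega : n + 1 - 1 - (j : ℕ) = (n - 1 - (j : ℕ)) + 1), argc_pair_succ]

end Pool.Agent.LIN.S
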