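import Pool.Agent.LIN.S.B3

/-!
# [LIN-SB4] truth lemma for the term model
-/

namespace Pool.Agent.LIN.S

open FirstOrder

variable {L : FirstOrder.Language.{0, 0}}

/-- Relations: `k5'` in both directions, as in `mk_app` (`c = pair i l`, `c' = pair i (lvars k)`,
`n' = k`, `e' = largs h x`). -/
theorem rel_iff {E : Enum L} {t : ℕ → Bool} (h : Good E t) (n i l e : ℕ) (hi : i < E.nR)
    (hd : ∀ j < (E.R ⟨i, hi⟩).1, t (jD n (argc l j)) = true) :
    t (jT n (4 * Nat.pair i l + 2) e) = true ↔
      (modStr h).RelMap (E.R ⟨i, hi⟩).2 (fun j => mk h (cl n (argc l j) e)) := by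
  have hk : aR E i = (E.R ⟨i, hi⟩).1 := by
    unfold aR
    rw [dif_pos hi]
  set k : ℕ := (E.R ⟨i, hi⟩).1 with hkdef
  set x : Fin k → Mod h := fun j => mk h (cl n (argc l j) e) with hx
  have hR : (modStr h).RelMap (E.R ⟨i, hi⟩).2 x ↔
      t (jT k (4 * Nat.pair i (lvars k) + 2) (largs h x)) = true := by
    have h1 : E.R.symm ⟨(E.R ⟨i, hi⟩).1, (E.R ⟨i, hi⟩).2⟩ = ⟨i, hi⟩ := by
      rw [Sigma.eta, Equiv.symm_apply_apply]
    show t (jT k (4 * Nat.pair (E.R.symm ⟨(E.R ⟨i, hi⟩).1, (E.R ⟨i, hi⟩).2⟩ : ℕ) (lvars k) + 2)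
      (largs h x)) = true ↔ _
    rw [h1]
  rw [hR]
  have hvar : ∀ j < k, t (jD k (argc (lvars k) j)) = true := by
    intro j hj
    rw [argc_lvars hj]
    exact (h.k1 k j).2 hj
  have heq : ∀ j < k, t (jE (cl n (argc l j) e) (cl k (argc (lvars k) j) (largs h x))) = true := by
    intro j hj
    rw [argc_lvars hj]
    have h1 : t (jE (cl k (2 * j) (largs h x)) (argc (largs h x) j)) = true :=
      h.k11 k j (largs h x) hj
    have h2 : argc (largs h x) j = nm h (x ⟨j, hj⟩) := argc_largs h x ⟨j, hj⟩
    rw [h2] at h1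
    rw [← mk_eq h] at h1 ⊢
    rw [h1, mk_nm]
  have hu1 : (Nat.unpair (Nat.pair i l)).1 = i := by rw [Nat.unpair_pair]
  have hu2 : (Nat.unpair (Nat.pair i l)).2 = l := by rw [Nat.unpair_pair]
  have hv1 : (Nat.unpair (Nat.pair i (lvars k))).1 = i := by rw [Nat.unpair_pair]
  have hv2 : (Nat.unpair (Nat.pair i (lvars k))).2 = lvars k := by rw [Nat.unpair_pair]
  constructor
  · intro ht
    have h5 := h.k5' n (Nat.pair i l) e k (Nat.pair i (lvars k)) (largs h x)
    unfold K5' at h5
    rw [hu1, hu2, hv1, hv2, hk] at h5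
    exact h5 ht rfl hvar heq
  · intro ht
    have h5 := h.k5' k (Nat.pair i (lvars k)) (largs h x) n (Nat.pair i l) e
    unfold K5' at h5
    rw [hu1, hu2, hv1, hv2, hk] at h5
    exact h5 ht rfl hd (fun j hj => h.symm (heq j hj))

/-- Truth lemma: strong induction on `c` generalizing `n e`, with `formOf_zero`, ...,
`formOf_all`, the fields `k3`-`k8`, `dec_iff`, `realize_termOf`, `mk_eq`, `rel_iff`, `asg_cons`;
for the quantifier: every element of the model is `mk h a` for some name `a` (`k7`), `k8`
for the converse. Every `c` is `0` or `4 x + r + 1` with `r < 4`. -/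
theorem truth {E : Enum L} {t : ℕ → Bool} (h : Good E t) (c n e : ℕ) (v : Empty → Mod h) :
    letI := modStr h
    t (jT n c e) = true ↔ (formOf E n c).Realize v (asg (mk h) n e) := by
  let _ := modStr h
  induction c using Nat.strong_induction_on generalizing n e with
  | _ c ih =>
    have hc : c = 0 ∨ ∃ x, c = 4 * x + 1 ∨ c = 4 * x + 2 ∨ c = 4 * x + 3 ∨ c = 4 * x + 4 := by
      rcases Nat.eq_zero_or_pos c with h0 | h0
      · exact Or.inl h0
      · refine Or.inr ⟨(c - 1) / 4, ?_⟩
        omega
    rcases hc with rfl | ⟨x, rfl | rfl | rfl | rfl⟩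
    · rw [formOf_zero]
      exact iff_of_false (h.k3 n e) (fun hf => hf)
    · have hk4 := h.k4 n x e
      unfold K4 at hk4
      rw [hk4]
      by_cases hd : (termOf E n (Nat.unpair x).1).isSome = true ∧
          (termOf E n (Nat.unpair x).2).isSome = true
      · obtain ⟨τ, hτ⟩ := Option.isSome_iff_exists.1 hd.1
        obtain ⟨σ, hσ⟩ := Option.isSome_iff_exists.1 hd.2
        rw [formOf_eq_some E n x τ σ hτ hσ]
        have h1 := realize_termOf h n (Nat.unpair x).1 e τ hτ v
        have h2 := realize_termOf h n (Nat.unpair x).2 e σ hσ v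
        have h3 : (FirstOrder.Language.BoundedFormula.equal τ σ).Realize v (asg (mk h) n e) ↔
            τ.realize (Sum.elim v (asg (mk h) n e)) = σ.realize (Sum.elim v (asg (mk h) n e)) :=
          Iff.rfl
        rw [h3, ← h1, ← h2, mk_eq, dec_iff h, dec_iff h]
        exact ⟨fun hh => hh.2.2, fun hh => ⟨hd.1, hd.2, hh⟩⟩
      · rw [formOf_eq_none E n x hd, dec_iff h, dec_iff h]
        exact iff_of_false (fun hh => hd ⟨hh.1, hh.2.1⟩) (fun hf => hf)
    · by_cases hd : (Nat.unpair x).1 < E.nR ∧ ∀ j < aR E (Nat.unpair x).1,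
          (termOf E n (argc (Nat.unpair x).2 j)).isSome = true
      · obtain ⟨hi, hd⟩ := hd
        have hk : aR E (Nat.unpair x).1 = (E.R ⟨(Nat.unpair x).1, hi⟩).1 := by
          unfold aR
          rw [dif_pos hi]
        rw [hk] at hd
        have hj : ∀ j : Fin (E.R ⟨_, hi⟩).1,
            (termOf E n (argc (Nat.unpair x).2 j)).isSome = true := fun j => hd j j.2
        rw [formOf_rel_some E n x hi hj]
        have h1 := rel_iff h n (Nat.unpair x).1 (Nat.unpair x).2 e hi
          (fun j hj => (dec_iff h n _).2 (hd j hj))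
        rw [Nat.pair_unpair] at h1
        rw [h1]
        have h2 : (fun j : Fin (E.R ⟨(Nat.unpair x).1, hi⟩).1 =>
            mk h (cl n (argc (Nat.unpair x).2 j) e)) =
            fun j : Fin (E.R ⟨(Nat.unpair x).1, hi⟩).1 =>
              ((termOf E n (argc (Nat.unpair x).2 j)).get (hj j)).realize
              (Sum.elim v (asg (mk h) n e)) := by
          funext j
          exact realize_termOf h n _ e _ (Option.some_get (hj j)).symm v
        rw [h2]
        exact Iff.rfl
      · rw [formOf_rel_none E n x hd]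
        refine iff_of_false (fun hh => hd ?_) (fun hf => hf)
        obtain ⟨h1, h2⟩ := h.k5 n x e hh
        exact ⟨h1, fun j hj => (dec_iff h n _).1 (h2 j hj)⟩
    · have hk6 := h.k6 n x e
      unfold K6 at hk6
      rw [formOf_imp, hk6]
      have e1 : (Nat.unpair x).1 < 4 * x + 3 := by
        have := Nat.unpair_left_le x
        omega
      have e2 : (Nat.unpair x).2 < 4 * x + 3 := by
        have := Nat.unpair_right_le x
        omega
      have i1 : t (jT n (Nat.unpair x).1 e) = true ↔
          (formOf E n (Nat.unpair x).1).Realize v (asg (mk h) n e) := ih _ e1 n e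
      have i2 : t (jT n (Nat.unpair x).2 e) = true ↔
          (formOf E n (Nat.unpair x).2).Realize v (asg (mk h) n e) := ih _ e2 n e
      rw [FirstOrder.Language.BoundedFormula.realize_imp, i1, i2]
    · rw [formOf_all, FirstOrder.Language.BoundedFormula.realize_all]
      have i1 : ∀ b, t (jT (n + 1) x (Nat.pair b e)) = true ↔
          (formOf E (n + 1) x).Realize v (Fin.snoc (asg (mk h) n e) (mk h b)) := by
        intro b
        rw [← asg_cons]
        exact ih x (by omega) (n + 1) (Nat.pair b e)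
      constructor
      · intro ht a
        have h1 := (i1 (nm h a)).1 (h.k7 n x e (nm h a) ht)
        rwa [mk_nm] at h1
      · intro hall
        exact h.k8 n x e ((i1 _).2 (hall _))

/-- A good valuation that makes the sentence `c` true gives a model of the sentence `c`. -/
theorem model_of_good {E : Enum L} {t : ℕ → Bool} (h : Good E t) (c : ℕ)
    (hc : t (jT 0 c 0) = true) :
    ∃ (M : Type) (_ : L.Structure M) (_ : Nonempty M), M ⊨ sent E c := by
  refine ⟨Mod h, modStr h, ⟨mk h 0⟩, ?_⟩
  let _ := modStr h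
  have h1 := (truth h c 0 0 (default : Empty → Mod h)).1 hc
  show (formOf E 0 c).Realize (default : Empty → Mod h) (default : Fin 0 → Mod h)
  rwa [Subsingleton.elim (default : Fin 0 → Mod h) (asg (mk h) 0 0)]

end Pool.Agent.LIN.S
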