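import Pool.Agent.LIN.S.B3

/-!
# [LIN] block S, part C: from a model to a good valuation (definitions)
-/

namespace Pool.Agent.LIN.S

open FirstOrder

variable {L : FirstOrder.Language.{0, 0}}

open Classical in
/-- One step of the interpretation of the names; `I` is the interpretation of the smaller names. -/
noncomputable def stepI (E : Enum L) (M : Type) [L.Structure M] [Nonempty M] (I : ℕ → M)
    (a : ℕ) : M :=
  if a % 2 = 0 then
    match termOf E (Nat.unpair (Nat.unpair (a / 2)).2).1 (Nat.unpair (a / 2)).1 with
    | some τ => τ.realize (Sum.elim (fun x : Empty => x.elim)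
        (asg I (Nat.unpair (Nat.unpair (a / 2)).2).1 (Nat.unpair (Nat.unpair (a / 2)).2).2))
    | none => Classical.arbitrary M
  else
    if h : ∃ x : M, ¬ (formOf E ((Nat.unpair (Nat.unpair (a / 2)).2).1 + 1)
        (Nat.unpair (a / 2)).1).Realize (fun x : Empty => x.elim)
        (Fin.snoc (asg I (Nat.unpair (Nat.unpair (a / 2)).2).1
          (Nat.unpair (Nat.unpair (a / 2)).2).2) x) then Classical.choose h
    else Classical.arbitrary M

/-- The interpretation of the names below `N`, by recursion on `N`. -/
noncomputable def preI (E : Enum L) (M : Type) [L.Structure M] [Nonempty M] : ℕ → ℕ → M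
  | 0 => fun _ => Classical.arbitrary M
  | N + 1 => fun a => if a < N then preI E M N a else
      if a = N then stepI E M (preI E M N) N else Classical.arbitrary M

/-- The interpretation of the names. -/
noncomputable def itp (E : Enum L) (M : Type) [L.Structure M] [Nonempty M] (a : ℕ) : M :=
  preI E M (a + 1) a

open Classical in
/-- The valuation given by a structure: truth, decodability, equality. -/
noncomputable def val (E : Enum L) (M : Type) [L.Structure M] [Nonempty M] (i : ℕ) : Bool :=
  if i % 3 = 0 then
    decide ((formOf E (Nat.unpair (Nat.unpair (i / 3)).2).1 (Nat.unpair (i / 3)).1).Realize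
      (fun x : Empty => x.elim)
      (asg (itp E M) (Nat.unpair (Nat.unpair (i / 3)).2).1 (Nat.unpair (Nat.unpair (i / 3)).2).2))
  else if i % 3 = 1 then (termOf E (Nat.unpair (i / 3)).1 (Nat.unpair (i / 3)).2).isSome
  else decide (itp E M (Nat.unpair (i / 3)).1 = itp E M (Nat.unpair (i / 3)).2)

end Pool.Agent.LIN.S
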