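import Pool.Agent.LIN.S.C0

/-!
# [LIN-SC1] the interpretation of the names of a structure
-/

namespace Pool.Agent.LIN.S

open FirstOrder

variable {L : FirstOrder.Language.{0, 0}}

/-- `preI E M N a = itp E M a` for all `a < N` (induction on `N`). -/
theorem preI_eq (E : Enum L) (M : Type) [L.Structure M] [Nonempty M] {N a : ℕ} (h : a < N) :
    preI E M N a = itp E M a := by
  induction N with
  | zero => exact absurd h (Nat.not_lt_zero a)
  | succ N ih =>
    by_cases h1 : a < N
    · rw [← ih h1]
      simp only [preI]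
      rw [if_pos h1]
    · have h2 : a = N := by omega
      subst h2
      rfl

private theorem c1_asg (E : Enum L) (M : Type) [L.Structure M] [Nonempty M] (a : ℕ) :
    asg (preI E M a) (Nat.unpair (Nat.unpair (a / 2)).2).1 (Nat.unpair (Nat.unpair (a / 2)).2).2 =
      asg (itp E M) (Nat.unpair (Nat.unpair (a / 2)).2).1
        (Nat.unpair (Nat.unpair (a / 2)).2).2 := by
  funext i
  unfold asg
  refine preI_eq E M ?_
  have hn : 1 ≤ (Nat.unpair (Nat.unpair (a / 2)).2).1 := by
    have := i.2
    omega
  rcases Nat.mod_two_eq_zero_or_one a with h | h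
  · have h1 : cl (Nat.unpair (Nat.unpair (a / 2)).2).1 (Nat.unpair (a / 2)).1
        (Nat.unpair (Nat.unpair (a / 2)).2).2 = a := by
      unfold cl
      rw [Nat.pair_unpair, Nat.pair_unpair]
      omega
    exact lt_of_lt_of_eq (lt_cl hn) h1
  · have h1 : wit (Nat.unpair (Nat.unpair (a / 2)).2).1 (Nat.unpair (a / 2)).1
        (Nat.unpair (Nat.unpair (a / 2)).2).2 = a := by
      unfold wit
      rw [Nat.pair_unpair, Nat.pair_unpair]
      omega
    exact lt_of_lt_of_eq lt_wit h1

private theorem c1_step_congr (E : Enum L) (M : Type) [L.Structure M] [Nonempty M] (I J : ℕ → M)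
    (a : ℕ) (h : asg I (Nat.unpair (Nat.unpair (a / 2)).2).1 (Nat.unpair (Nat.unpair (a / 2)).2).2 =
      asg J (Nat.unpair (Nat.unpair (a / 2)).2).1 (Nat.unpair (Nat.unpair (a / 2)).2).2) :
    stepI E M I a = stepI E M J a := by
  unfold stepI
  rw [h]

/-- The recursion equation: `stepI` uses the interpretation only at the names
`argc e j` in `asg I n e : Fin n → M`, which are `< a` (`lt_cl` for even `a`, `n ≥ 1` because
`Fin n` is inhabited; `lt_wit` for odd `a`). So `itp E M a = stepI E M (itp E M) a`. -/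
theorem itp_eq (E : Enum L) (M : Type) [L.Structure M] [Nonempty M] (a : ℕ) :
    itp E M a = stepI E M (itp E M) a := by
  rw [← c1_step_congr E M (preI E M a) (itp E M) a (c1_asg E M a)]
  unfold itp
  simp only [preI]
  rw [if_neg (lt_irrefl a), if_pos trivial]

private theorem c1_even (E : Enum L) (M : Type) [L.Structure M] [Nonempty M] (I : ℕ → M)
    (a n c e : ℕ) (h2 : a % 2 = 0) (hc : (Nat.unpair (a / 2)).1 = c)
    (hn : (Nat.unpair (Nat.unpair (a / 2)).2).1 = n) (he : (Nat.unpair (Nat.unpair (a / 2)).2).2 = e)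
    (τ : L.Term (Empty ⊕ Fin n)) (hτ : termOf E n c = some τ) :
    stepI E M I a = τ.realize (Sum.elim (fun x : Empty => x.elim) (asg I n e)) := by
  subst hc
  subst hn
  subst he
  unfold stepI
  rw [if_pos h2, hτ]

/-- Value of a decodable closure. -/
theorem itp_cl (E : Enum L) (M : Type) [L.Structure M] [Nonempty M] (n c e : ℕ)
    (τ : L.Term (Empty ⊕ Fin n)) (hτ : termOf E n c = some τ) :
    itp E M (cl n c e) = τ.realize (Sum.elim (fun x : Empty => x.elim) (asg (itp E M) n e)) := by
  rw [itp_eq]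
  have h1 : cl n c e / 2 = Nat.pair c (Nat.pair n e) := by
    unfold cl
    omega
  refine c1_even E M (itp E M) (cl n c e) n c e ?_ ?_ ?_ ?_ τ hτ
  · unfold cl
    omega
  · rw [h1, Nat.unpair_pair]
  · rw [h1, Nat.unpair_pair, Nat.unpair_pair]
  · rw [h1, Nat.unpair_pair, Nat.unpair_pair]

private theorem c1_odd (E : Enum L) (M : Type) [L.Structure M] [Nonempty M] (I : ℕ → M)
    (a n c e : ℕ) (h2 : ¬ a % 2 = 0) (hc : (Nat.unpair (a / 2)).1 = c)
    (hn : (Nat.unpair (Nat.unpair (a / 2)).2).1 = n) (he : (Nat.unpair (Nat.unpair (a / 2)).2).2 = e)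
    (h : ∃ x : M, ¬ (formOf E (n + 1) c).Realize (fun x : Empty => x.elim)
        (Fin.snoc (asg I n e) x)) :
    ¬ (formOf E (n + 1) c).Realize (fun x : Empty => x.elim)
        (Fin.snoc (asg I n e) (stepI E M I a)) := by
  subst hc
  subst hn
  subst he
  have h3 : stepI E M I a = Classical.choose h := by
    unfold stepI
    rw [if_neg h2, dif_pos h]
  rw [h3]
  exact Classical.choose_spec h

/-- The witness refutes the formula if anything does. -/
theorem itp_wit (E : Enum L) (M : Type) [L.Structure M] [Nonempty M] (n x e : ℕ)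
    (h : (formOf E (n + 1) x).Realize (fun x : Empty => x.elim)
      (Fin.snoc (asg (itp E M) n e) (itp E M (wit n x e)))) (y : M) :
    (formOf E (n + 1) x).Realize (fun x : Empty => x.elim)
      (Fin.snoc (asg (itp E M) n e) y) := by
  by_contra hy
  have h1 : wit n x e / 2 = Nat.pair x (Nat.pair n e) := by
    unfold wit
    omega
  refine c1_odd E M (itp E M) (wit n x e) n x e ?_ ?_ ?_ ?_ ⟨y, hy⟩ ?_
  · unfold wit
    omega
  · rw [h1, Nat.unpair_pair]
  · rw [h1, Nat.unpair_pair, Nat.unpair_pair]
  · rw [h1, Nat.unpair_pair, Nat.unpair_pair]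
  · rw [← itp_eq]
    exact h

private theorem c1_val (E : Enum L) (M : Type) [L.Structure M] [Nonempty M] (i n c e : ℕ)
    (h3 : i % 3 = 0) (hc : (Nat.unpair (i / 3)).1 = c)
    (hn : (Nat.unpair (Nat.unpair (i / 3)).2).1 = n)
    (he : (Nat.unpair (Nat.unpair (i / 3)).2).2 = e) :
    val E M i = true ↔ (formOf E n c).Realize (fun x : Empty => x.elim)
      (asg (itp E M) n e) := by
  subst hc
  subst hn
  subst he
  unfold val
  rw [if_pos h3]
  simp only [decide_eq_true_eq]

theorem val_jT (E : Enum L) (M : Type) [L.Structure M] [Nonempty M] (n c e : ℕ) :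
    val E M (jT n c e) = true ↔ (formOf E n c).Realize (fun x : Empty => x.elim)
      (asg (itp E M) n e) := by
  have h1 : jT n c e / 3 = Nat.pair c (Nat.pair n e) := by
    unfold jT
    omega
  refine c1_val E M (jT n c e) n c e ?_ ?_ ?_ ?_
  · unfold jT
    omega
  · rw [h1, Nat.unpair_pair]
  · rw [h1, Nat.unpair_pair, Nat.unpair_pair]
  · rw [h1, Nat.unpair_pair, Nat.unpair_pair]

private theorem c1_valD (E : Enum L) (M : Type) [L.Structure M] [Nonempty M] (i n c : ℕ)
    (h3 : i % 3 = 1) (hn : (Nat.unpair (i / 3)).1 = n) (hc : (Nat.unpair (i / 3)).2 = c) :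
    val E M i = true ↔ (termOf E n c).isSome = true := by
  subst hc
  subst hn
  unfold val
  rw [if_neg (by omega), if_pos h3]

theorem val_jD (E : Enum L) (M : Type) [L.Structure M] [Nonempty M] (n c : ℕ) :
    val E M (jD n c) = true ↔ (termOf E n c).isSome = true := by
  have h1 : jD n c / 3 = Nat.pair n c := by
    unfold jD
    omega
  refine c1_valD E M (jD n c) n c ?_ ?_ ?_
  · unfold jD
    omega
  · rw [h1, Nat.unpair_pair]
  · rw [h1, Nat.unpair_pair]

theorem val_jE (E : Enum L) (M : Type) [L.Structure M] [Nonempty M] (a b : ℕ) :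
    val E M (jE a b) = true ↔ itp E M a = itp E M b := by
  have h1 : jE a b / 3 = Nat.pair a b := by
    unfold jE
    omega
  have h2 : jE a b % 3 = 2 := by
    unfold jE
    omega
  unfold val
  rw [if_neg (by omega), if_neg (by omega), h1, Nat.unpair_pair]
  simp only [decide_eq_true_eq]

end Pool.Agent.LIN.S
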