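import Pool.Agent.LIN.S.C1

/-!
# [LIN-SC2] the valuation of a structure is good
-/

namespace Pool.Agent.LIN.S

open FirstOrder

variable {L : FirstOrder.Language.{0, 0}}

/-- The truth of an atomic formula in terms of the names of its arguments. -/
theorem C2_rel (E : Enum L) (M : Type) [L.Structure M] [Nonempty M] (n c e i : ℕ)
    (hi : i < E.nR) (hci : (Nat.unpair c).1 = i)
    (hd : ∀ j < (E.R ⟨i, hi⟩).1, (termOf E n (argc (Nat.unpair c).2 j)).isSome = true) :
    (formOf E n (4 * c + 2)).Realize (fun x : Empty => x.elim) (asg (itp E M) n e) ↔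
      FirstOrder.Language.Structure.RelMap (E.R ⟨i, hi⟩).2
        (fun j => itp E M (cl n (argc (Nat.unpair c).2 j) e)) := by
  subst hci
  rw [formOf_rel_some E n c hi (fun j => hd j j.2)]
  show FirstOrder.Language.Structure.RelMap (E.R ⟨_, hi⟩).2 (fun j =>
    ((termOf E n (argc (Nat.unpair c).2 j)).get (hd j j.2)).realize
      (Sum.elim (fun x : Empty => x.elim) (asg (itp E M) n e))) ↔ _
  have h1 : (fun j : Fin (E.R ⟨_, hi⟩).1 =>
      ((termOf E n (argc (Nat.unpair c).2 j)).get (hd j j.2)).realize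
        (Sum.elim (fun x : Empty => x.elim) (asg (itp E M) n e)))
      = fun j : Fin (E.R ⟨_, hi⟩).1 => itp E M (cl n (argc (Nat.unpair c).2 j) e) := by
    funext j
    exact (itp_cl E M n _ e _ (Option.some_get (hd j j.2)).symm).symm
  rw [h1]

/-- The name of an application in terms of the names of its arguments. -/
theorem C2_fun (E : Enum L) (M : Type) [L.Structure M] [Nonempty M] (n c e i : ℕ)
    (hi : i < E.nF) (hci : (Nat.unpair c).1 = i)
    (hd : ∀ j < (E.F ⟨i, hi⟩).1, (termOf E n (argc (Nat.unpair c).2 j)).isSome = true) :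
    itp E M (cl n (2 * c + 1) e) = FirstOrder.Language.Structure.funMap (E.F ⟨i, hi⟩).2
        (fun j => itp E M (cl n (argc (Nat.unpair c).2 j) e)) := by
  subst hci
  rw [itp_cl E M n (2 * c + 1) e _ (termOf_odd E n c hi (fun j => hd j j.2))]
  show FirstOrder.Language.Structure.funMap (E.F ⟨_, hi⟩).2 (fun j =>
    ((termOf E n (argc (Nat.unpair c).2 j)).get (hd j j.2)).realize
      (Sum.elim (fun x : Empty => x.elim) (asg (itp E M) n e))) = _
  congr 1
  funext j
  exact (itp_cl E M n _ e _ (Option.some_get (hd j j.2)).symm).symm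

theorem C2_k4 (E : Enum L) (M : Type) [L.Structure M] [Nonempty M] (n c e : ℕ) :
    K4 (val E M) n c e := by
  unfold K4
  rw [val_jT, val_jD, val_jD, val_jE]
  by_cases h : (termOf E n (Nat.unpair c).1).isSome = true ∧
      (termOf E n (Nat.unpair c).2).isSome = true
  · obtain ⟨h1, h2⟩ := h
    obtain ⟨τ, hτ⟩ := Option.isSome_iff_exists.1 h1
    obtain ⟨σ, hσ⟩ := Option.isSome_iff_exists.1 h2
    rw [formOf_eq_some E n c τ σ hτ hσ, itp_cl E M n _ e τ hτ, itp_cl E M n _ e σ hσ]
    exact ⟨fun h3 => ⟨h1, h2, h3⟩, fun h3 => h3.2.2⟩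
  · rw [formOf_eq_none E n c h]
    constructor
    · intro h1
      exact h1.elim
    · intro h1
      exact absurd ⟨h1.1, h1.2.1⟩ h

theorem C2_k5 (E : Enum L) (M : Type) [L.Structure M] [Nonempty M] (n c e : ℕ) :
    K5 E (val E M) n c e := by
  unfold K5
  intro h
  rw [val_jT] at h
  have h2 : (Nat.unpair c).1 < E.nR ∧ ∀ j < aR E (Nat.unpair c).1,
      (termOf E n (argc (Nat.unpair c).2 j)).isSome = true := by
    by_contra hc
    rw [formOf_rel_none E n c hc] at h
    exact h.elim
  refine ⟨h2.1, fun j hj => ?_⟩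
  rw [val_jD]
  exact h2.2 j hj

theorem C2_k5' (E : Enum L) (M : Type) [L.Structure M] [Nonempty M] (n c e n' c' e' : ℕ) :
    K5' E (val E M) n c e n' c' e' := by
  unfold K5'
  intro h hcc hd hE
  obtain ⟨hi, hdc⟩ := C2_k5 E M n c e h
  rw [val_jT] at h ⊢
  have har : aR E (Nat.unpair c).1 = (E.R ⟨(Nat.unpair c).1, hi⟩).1 := by
    unfold aR
    rw [dif_pos hi]
  rw [har] at hdc hd hE
  have h1 := (C2_rel E M n c e (Nat.unpair c).1 hi rfl
    (fun j hj => (val_jD E M n _).1 (hdc j hj))).1 h
  refine (C2_rel E M n' c' e' (Nat.unpair c).1 hi hcc.symm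
    (fun j hj => (val_jD E M n' _).1 (hd j hj))).2 ?_
  have h2 : (fun j : Fin (E.R ⟨(Nat.unpair c).1, hi⟩).1 =>
      itp E M (cl n' (argc (Nat.unpair c').2 j) e'))
      = fun j : Fin (E.R ⟨(Nat.unpair c).1, hi⟩).1 =>
        itp E M (cl n (argc (Nat.unpair c).2 j) e) := by
    funext j
    exact ((val_jE E M _ _).1 (hE j j.2)).symm
  rw [h2]
  exact h1

theorem C2_k12 (E : Enum L) (M : Type) [L.Structure M] [Nonempty M] (n c e n' c' e' : ℕ) :
    K12 E (val E M) n c e n' c' e' := by
  unfold K12
  intro hi hcc hdc hd hE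
  have har : aF E (Nat.unpair c).1 = (E.F ⟨(Nat.unpair c).1, hi⟩).1 := by
    unfold aF
    rw [dif_pos hi]
  rw [har] at hdc hd hE
  rw [val_jE, C2_fun E M n c e (Nat.unpair c).1 hi rfl
    (fun j hj => (val_jD E M n _).1 (hdc j hj)),
    C2_fun E M n' c' e' (Nat.unpair c).1 hi hcc.symm
    (fun j hj => (val_jD E M n' _).1 (hd j hj))]
  congr 1
  funext j
  exact (val_jE E M _ _).1 (hE j j.2)

/-- All conditions: rewrite with `val_jT`, `val_jD`, `val_jE`; `k1`: `termOf_even`,
`termOf_even_none`; `k2`: `termOf_odd_isSome`; `k3`-`k8`: `formOf_zero`, .., `formOf_all`,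
`asg_cons`, `itp_cl`, `itp_wit`; `k11`: `itp_cl` with `termOf_even` and `asg` at the index
`n - 1 - c`; `k12`: `itp_cl` with `termOf_odd` on both sides, the values of the arguments agree;
`k5'`: the same for relations. -/
theorem val_good (E : Enum L) (M : Type) [L.Structure M] [Nonempty M] : Good E (val E M) where
  k1 n c := by
    unfold K1
    rw [val_jD]
    by_cases h : c < n
    · rw [termOf_even E n c h]
      exact ⟨fun _ => h, fun _ => rfl⟩
    · rw [termOf_even_none E n c h]
      exact ⟨fun h1 => absurd h1 (by simp), fun h1 => absurd h1 h⟩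
  k2 n c := by
    unfold K2
    rw [val_jD, termOf_odd_isSome]
    simp only [val_jD]
  k3 n e := by
    unfold K3
    rw [val_jT, formOf_zero]
    exact fun h => h
  k4 n c e := C2_k4 E M n c e
  k5 n c e := C2_k5 E M n c e
  k5' n c e n' c' e' := C2_k5' E M n c e n' c' e'
  k6 n c e := by
    unfold K6
    rw [val_jT, val_jT, val_jT, formOf_imp]
    exact Iff.rfl
  k7 n c e a := by
    unfold K7
    rw [val_jT, val_jT, formOf_all, asg_cons]
    intro h
    exact h (itp E M a)
  k8 n c e := by
    unfold K8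
    rw [val_jT, val_jT, formOf_all, asg_cons]
    intro h y
    exact itp_wit E M n c e h y
  k9 n := by
    unfold K9
    rw [val_jE]
  k10 n c e := by
    unfold K10
    rw [val_jE, val_jE, val_jE]
    exact fun h1 h2 => h1.symm.trans h2
  k11 n c e := by
    unfold K11
    intro h
    rw [val_jE, itp_cl E M n (2 * c) e _ (termOf_even E n c h)]
    show itp E M (argc e (n - 1 - (n - 1 - c))) = _
    have h1 : n - 1 - (n - 1 - c) = c := by omega
    rw [h1]
  k12 n c e n' c' e' := C2_k12 E M n c e n' c' e'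

/-- A model of the sentence `c` gives a good valuation that makes it true
(`asg` on `Fin 0` is the default assignment). -/
theorem good_of_model (E : Enum L) (M : Type) [L.Structure M] [Nonempty M] (c : ℕ)
    (hc : M ⊨ sent E c) : ∃ t, Good E t ∧ t (jT 0 c 0) = true := by
  refine ⟨val E M, val_good E M, ?_⟩
  rw [val_jT]
  have h1 : (formOf E 0 c).Realize (default : Empty → M) (default : Fin 0 → M) := hc
  have h2 : (fun x : Empty => x.elim) = (default : Empty → M) := Subsingleton.elim _ _
  have h3 : asg (itp E M) 0 0 = (default : Fin 0 → M) := Subsingleton.elim _ _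
  rw [h2, h3]
  exact h1

end Pool.Agent.LIN.S
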