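import Pool.Agent.LIN.S.A5
import Pool.Agent.LIN.S.B4
import Pool.Agent.LIN.S.C2

/-!
# [LIN] block S, final theorem
-/

namespace Pool.Agent.LIN.S

open FirstOrder

variable {L : FirstOrder.Language.{0, 0}}

theorem sat_iff (E : Enum L) (c : ℕ) :
    (∃ (M : Type) (_ : L.Structure M) (_ : Nonempty M), M ⊨ sent E c) ↔
      ∃ t, Good E t ∧ t (jT 0 c 0) = true := by
  constructor
  · rintro ⟨M, _, _, h⟩
    exact good_of_model E M c h
  · rintro ⟨t, h, hc⟩
    exact model_of_good h c hc

end Pool.Agent.LIN.S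

namespace Pool.Agent.LIN

/-- Block S: satisfiability is `Pi^0_1`. -/
theorem satStatement : SatStatement := by
  intro L E
  simp_rw [S.sat_iff E]
  exact S.re_unsat E

end Pool.Agent.LIN
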