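import Pool.Agent.LIN.Iface

/-!
# [LIN] block S (validity is c.e.), definitions

NAMES are natural numbers: `cl n c e` is the closure 'term code `c` in the context of `n` bound
variables, evaluated in the environment `e`' (`e` codes the list of the names of the `n`
variables, innermost first: variable `k` has the name `argc e k`); `wit n x e` is the Henkin
witness for the formula code `x` in the context `n + 1`, environment `e`.
A valuation is a function `t : ℕ → Bool` on the judgement codes
`jT n c e` (formula `c` is true in the context `n`, environment `e`),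
`jD n c` (the term code `c` is decodable in the context `n`), `jE a b` (the names `a`, `b` are equal).
`Good E t` is a `Pi^0_1` condition consisting of LOCAL conditions.
-/

namespace Pool.Agent.LIN.S

open FirstOrder

variable {L : FirstOrder.Language.{0, 0}}

/-- Name of the closure of the term code `c` in context `n`, environment `e`. -/
def cl (n c e : ℕ) : ℕ := 2 * Nat.pair c (Nat.pair n e)

/-- Name of the witness for the formula code `x` (context `n + 1`) in the environment `e`. -/
def wit (n x e : ℕ) : ℕ := 2 * Nat.pair x (Nat.pair n e) + 1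

/-- Judgement: formula code `c`, context `n`, environment `e`, is true. -/
def jT (n c e : ℕ) : ℕ := 3 * Nat.pair c (Nat.pair n e)

/-- Judgement: term code `c` is decodable in context `n`. -/
def jD (n c : ℕ) : ℕ := 3 * Nat.pair n c + 1

/-- Judgement: the names `a` and `b` are equal. -/
def jE (a b : ℕ) : ℕ := 3 * Nat.pair a b + 2

/-- Arity of the function symbol number `i`. -/
def aF (E : Enum L) (i : ℕ) : ℕ := if h : i < E.nF then (E.F ⟨i, h⟩).1 else 0

/-- Arity of the relation symbol number `i`. -/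
def aR (E : Enum L) (i : ℕ) : ℕ := if h : i < E.nR then (E.R ⟨i, h⟩).1 else 0

/-! ### the local conditions -/

section cond

variable (E : Enum L) (t : ℕ → Bool) (n c e n' c' e' a : ℕ)

def K1 : Prop := t (jD n (2 * c)) = true ↔ c < n

def K2 : Prop := t (jD n (2 * c + 1)) = true ↔
  (Nat.unpair c).1 < E.nF ∧ ∀ j < aF E (Nat.unpair c).1, t (jD n (argc (Nat.unpair c).2 j)) = true

def K3 : Prop := ¬ t (jT n 0 e) = true

def K4 : Prop := t (jT n (4 * c + 1) e) = true ↔
  t (jD n (Nat.unpair c).1) = true ∧ t (jD n (Nat.unpair c).2) = true ∧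
    t (jE (cl n (Nat.unpair c).1 e) (cl n (Nat.unpair c).2 e)) = true

def K5 : Prop := t (jT n (4 * c + 2) e) = true →
  (Nat.unpair c).1 < E.nR ∧ ∀ j < aR E (Nat.unpair c).1, t (jD n (argc (Nat.unpair c).2 j)) = true

def K5' : Prop := t (jT n (4 * c + 2) e) = true → (Nat.unpair c).1 = (Nat.unpair c').1 →
  (∀ j < aR E (Nat.unpair c).1, t (jD n' (argc (Nat.unpair c').2 j)) = true) →
  (∀ j < aR E (Nat.unpair c).1, t (jE (cl n (argc (Nat.unpair c).2 j) e)
    (cl n' (argc (Nat.unpair c').2 j) e')) = true) →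
  t (jT n' (4 * c' + 2) e') = true

def K6 : Prop := t (jT n (4 * c + 3) e) = true ↔
  (t (jT n (Nat.unpair c).1 e) = true → t (jT n (Nat.unpair c).2 e) = true)

def K7 : Prop := t (jT n (4 * c + 4) e) = true → t (jT (n + 1) c (Nat.pair a e)) = true

def K8 : Prop := t (jT (n + 1) c (Nat.pair (wit n c e) e)) = true → t (jT n (4 * c + 4) e) = true

def K9 : Prop := t (jE n n) = true

def K10 : Prop := t (jE n c) = true → t (jE n e) = true → t (jE c e) = true

def K11 : Prop := c < n → t (jE (cl n (2 * c) e) (argc e c)) = true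

def K12 : Prop := (Nat.unpair c).1 < E.nF → (Nat.unpair c).1 = (Nat.unpair c').1 →
  (∀ j < aF E (Nat.unpair c).1, t (jD n (argc (Nat.unpair c).2 j)) = true) →
  (∀ j < aF E (Nat.unpair c).1, t (jD n' (argc (Nat.unpair c').2 j)) = true) →
  (∀ j < aF E (Nat.unpair c).1, t (jE (cl n (argc (Nat.unpair c).2 j) e)
    (cl n' (argc (Nat.unpair c').2 j) e')) = true) →
  t (jE (cl n (2 * c + 1) e) (cl n' (2 * c' + 1) e')) = true

end cond

/-- All local conditions with the parameters `(argc p 0, ..., argc p 6)`. -/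
def chk (E : Enum L) (p : ℕ) (t : ℕ → Bool) : Prop :=
  K1 t (argc p 0) (argc p 1) ∧ K2 E t (argc p 0) (argc p 1) ∧ K3 t (argc p 0) (argc p 2) ∧
  K4 t (argc p 0) (argc p 1) (argc p 2) ∧ K5 E t (argc p 0) (argc p 1) (argc p 2) ∧
  K5' E t (argc p 0) (argc p 1) (argc p 2) (argc p 3) (argc p 4) (argc p 5) ∧
  K6 t (argc p 0) (argc p 1) (argc p 2) ∧ K7 t (argc p 0) (argc p 1) (argc p 2) (argc p 6) ∧
  K8 t (argc p 0) (argc p 1) (argc p 2) ∧ K9 t (argc p 0) ∧
  K10 t (argc p 0) (argc p 1) (argc p 2) ∧ K11 t (argc p 0) (argc p 1) (argc p 2) ∧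
  K12 E t (argc p 0) (argc p 1) (argc p 2) (argc p 3) (argc p 4) (argc p 5)

/-- The valuation `t` satisfies all local conditions. -/
structure Good (E : Enum L) (t : ℕ → Bool) : Prop where
  k1 : ∀ n c, K1 t n c
  k2 : ∀ n c, K2 E t n c
  k3 : ∀ n e, K3 t n e
  k4 : ∀ n c e, K4 t n c e
  k5 : ∀ n c e, K5 E t n c e
  k5' : ∀ n c e n' c' e', K5' E t n c e n' c' e'
  k6 : ∀ n c e, K6 t n c e
  k7 : ∀ n c e a, K7 t n c e a
  k8 : ∀ n c e, K8 t n c e
  k9 : ∀ n, K9 t n
  k10 : ∀ n c e, K10 t n c e
  k11 : ∀ n c e, K11 t n c e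
  k12 : ∀ n c e n' c' e', K12 E t n c e n' c' e'

/-- Bound for the judgement codes in `chk E p`. -/
def beta (p : ℕ) : ℕ :=
  3 * Nat.pair (Nat.pair (2 * Nat.pair (2 * p + 2) (Nat.pair (2 * p + 2) (2 * p + 2)) + 1)
    (2 * Nat.pair (2 * p + 2) (Nat.pair (2 * p + 2) (2 * p + 2)) + 1))
    (Nat.pair (2 * Nat.pair (2 * p + 2) (Nat.pair (2 * p + 2) (2 * p + 2)) + 1)
      (Nat.pair (2 * Nat.pair (2 * p + 2) (Nat.pair (2 * p + 2) (2 * p + 2)) + 1)
        (2 * Nat.pair (2 * p + 2) (Nat.pair (2 * p + 2) (2 * p + 2)) + 1))) + 3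

/-- Code of a list of numbers (followed by zeros). -/
def lcode : List ℕ → ℕ
  | [] => 0
  | a :: l => Nat.pair a (lcode l)

/-- Assignment of the elements `f (name)` to the `n` bound variables (Mathlib counts the
variables from the outermost quantifier). -/
def asg {M : Type} (f : ℕ → M) (n e : ℕ) : Fin n → M := fun i => f (argc e (n - 1 - i))

end Pool.Agent.LIN.S
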